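import Mathlib

/-!
# Fans (MP_c7cb83_co), module Ca: links and cleaning

PLAN.
* the membership lemmas: `Finset.mem_filter` and the equality of the finsets (`Finset.insert_comm`, `Finset.pair_comm`), `lk_ne` from `card = 3` (`Finset.card_le_two` style).
* `clean`: strong induction on `H.card` for the stronger statement: `H.card ≤ T.card + K * P.card` where `P = (univ : Finset (Fin n × Fin n)).filter (fun p => (lk H p.1 p.2).Nonempty)`.  If some `a, b` has
  `0 < (lk H a b).card < K`, let `H' = H.filter (fun t => ¬ (a ∈ t ∧ b ∈ t))`: the removed triples are `{a, b, w}`, `w ∈ lk H a b` (at most `K`), `lk H' ⊆ lk H` and `lk H' a b = ∅`, so `P` loses the pair `(a, b)`.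
  Otherwise `T = H`.  `P.card ≤ n ^ 2`.
-/

set_option autoImplicit false

namespace Pool.Agent.FAN

open Finset

variable {n : ℕ}

/-- the third vertices of the triples containing `a`, `b` -/
def lk (T : Finset (Finset (Fin n))) (a b : Fin n) : Finset (Fin n) :=
  univ.filter (fun w => ({a, b, w} : Finset (Fin n)) ∈ T)

/-- the neighbours of `a` -/
def nbh (T : Finset (Finset (Fin n))) (a : Fin n) : Finset (Fin n) :=
  univ.filter (fun b => (lk T a b).Nonempty)

theorem mem_lk {T : Finset (Finset (Fin n))} {a b w : Fin n} :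
    w ∈ lk T a b ↔ ({a, b, w} : Finset (Fin n)) ∈ T := by simp [lk]

theorem lk_comm (T : Finset (Finset (Fin n))) (a b : Fin n) : lk T a b = lk T b a := by
  ext w
  rw [mem_lk, mem_lk, Finset.insert_comm]

theorem lk_rot {T : Finset (Finset (Fin n))} {a b w : Fin n} (h : w ∈ lk T a b) : b ∈ lk T a w := by
  rw [mem_lk] at h ⊢
  rwa [Finset.pair_comm w b]

theorem lk_ne {T : Finset (Finset (Fin n))} (hT : ∀ e ∈ T, e.card = 3) {a b w : Fin n}
    (h : w ∈ lk T a b) : a ≠ b ∧ w ≠ a ∧ w ≠ b := by
  have h3 := hT _ (mem_lk.1 h)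
  refine ⟨?_, ?_, ?_⟩
  · rintro rfl
    have e : ({a, a, w} : Finset (Fin n)) = {a, w} := by simp
    rw [e] at h3
    have := Finset.card_le_two (a := a) (b := w)
    omega
  · rintro rfl
    have e : ({w, b, w} : Finset (Fin n)) = {b, w} := by
      ext x; simp only [mem_insert, mem_singleton]; tauto
    rw [e] at h3
    have := Finset.card_le_two (a := b) (b := w)
    omega
  · rintro rfl
    have e : ({a, w, w} : Finset (Fin n)) = {a, w} := by simp
    rw [e] at h3
    have := Finset.card_le_two (a := a) (b := w)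
    omega

theorem mem_nbh {T : Finset (Finset (Fin n))} {a b : Fin n} : b ∈ nbh T a ↔ (lk T a b).Nonempty := by
  simp [nbh]

theorem nbh_comm {T : Finset (Finset (Fin n))} {a b : Fin n} : b ∈ nbh T a ↔ a ∈ nbh T b := by
  rw [mem_nbh, mem_nbh, lk_comm]

/-- the third vertices are common neighbours -/
theorem lk_sub (T : Finset (Finset (Fin n))) (a b : Fin n) : lk T a b ⊆ nbh T a ∩ nbh T b := by
  intro w hw
  rw [mem_inter, mem_nbh, mem_nbh]
  refine ⟨⟨b, lk_rot hw⟩, ⟨a, ?_⟩⟩
  rw [lk_comm] at hw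
  exact lk_rot hw

private theorem ca_step (T : Finset (Finset (Fin n))) (hT : ∀ e ∈ T, e.card = 3) (a b : Fin n)
    (hab : a ≠ b) : (T.filter (fun t => a ∈ t ∧ b ∈ t)).card ≤ (lk T a b).card := by
  apply Finset.card_le_card_of_surjOn (fun w => ({a, b, w} : Finset (Fin n)))
  intro t ht
  simp only [coe_filter, Set.mem_ofPred_eq] at ht
  obtain ⟨htT, ha, hb⟩ := ht
  have hsub : ({a, b} : Finset (Fin n)) ⊆ t := by
    intro x hx
    simp only [mem_insert, mem_singleton] at hx
    rcases hx with rfl | rfl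
    · exact ha
    · exact hb
  have h1 : (t \ {a, b}).card = 1 := by
    rw [Finset.card_sdiff_of_subset hsub, hT t htT, Finset.card_pair hab]
  obtain ⟨w, hw⟩ := Finset.card_eq_one.1 h1
  have e : ({a, b, w} : Finset (Fin n)) = t := by
    have h2 : t = {a, b} ∪ (t \ {a, b}) := (Finset.union_sdiff_of_subset hsub).symm
    rw [h2, hw]
    ext x
    simp only [mem_insert, mem_singleton, mem_union]
    tauto
  refine ⟨w, ?_, e⟩
  rw [mem_coe, mem_lk, e]
  exact htT

private theorem ca_clean (K : ℕ) (m : ℕ) : ∀ H : Finset (Finset (Fin n)), H.card ≤ m →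
    (∀ e ∈ H, e.card = 3) →
    ∃ T ⊆ H, (∀ a b, (lk T a b).card = 0 ∨ K ≤ (lk T a b).card) ∧
      H.card ≤ T.card +
        K * ((univ : Finset (Fin n × Fin n)).filter (fun p => (lk H p.1 p.2).Nonempty)).card := by
  induction m with
  | zero =>
    intro H hm hH
    refine ⟨H, Subset.refl _, ?_, by omega⟩
    intro a b
    left
    have h0 : H = ∅ := Finset.card_eq_zero.1 (by omega)
    subst h0
    simp [lk]
  | succ m ih =>
    intro H hm hH
    by_cases hgood : ∀ a b, (lk H a b).card = 0 ∨ K ≤ (lk H a b).card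
    · exact ⟨H, Subset.refl _, hgood, by omega⟩
    push Not at hgood
    obtain ⟨a, b, h0, hK⟩ := hgood
    have hne : (lk H a b).Nonempty := Finset.card_ne_zero.1 h0
    obtain ⟨w, hw⟩ := hne
    have hab : a ≠ b := (lk_ne hH hw).1
    have hsplit := Finset.card_filter_add_card_filter_not (s := H) (fun t => a ∈ t ∧ b ∈ t)
    have hstep := ca_step H hH a b hab
    have hpos : 0 < (H.filter (fun t => a ∈ t ∧ b ∈ t)).card := by
      apply Finset.card_pos.2
      refine ⟨{a, b, w}, ?_⟩
      rw [mem_filter]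
      exact ⟨mem_lk.1 hw, by simp, by simp⟩
    obtain ⟨T, hT1, hT2, hT3⟩ := ih (H.filter (fun t => ¬ (a ∈ t ∧ b ∈ t))) (by omega)
      (fun e he => hH e (mem_filter.1 he).1)
    refine ⟨T, fun x hx => (mem_filter.1 (hT1 hx)).1, hT2, ?_⟩
    have hP : ((univ : Finset (Fin n × Fin n)).filter
        (fun p => (lk (H.filter (fun t => ¬ (a ∈ t ∧ b ∈ t))) p.1 p.2).Nonempty)).card <
        ((univ : Finset (Fin n × Fin n)).filter (fun p => (lk H p.1 p.2).Nonempty)).card := by
      apply Finset.card_lt_card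
      rw [Finset.ssubset_iff_of_subset]
      · refine ⟨(a, b), ?_, ?_⟩
        · rw [mem_filter]
          exact ⟨mem_univ _, ⟨w, hw⟩⟩
        · rw [mem_filter]
          rintro ⟨-, x, hx⟩
          have := mem_lk.1 hx
          rw [mem_filter] at this
          exact this.2 ⟨by simp, by simp⟩
      · intro p hp
        rw [mem_filter] at hp ⊢
        obtain ⟨-, x, hx⟩ := hp
        refine ⟨mem_univ _, x, ?_⟩
        rw [mem_lk] at hx ⊢
        exact (mem_filter.1 hx).1
    have hmul : K * (((univ : Finset (Fin n × Fin n)).filter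
        (fun p => (lk (H.filter (fun t => ¬ (a ∈ t ∧ b ∈ t))) p.1 p.2).Nonempty)).card + 1) ≤
        K * ((univ : Finset (Fin n × Fin n)).filter (fun p => (lk H p.1 p.2).Nonempty)).card :=
      Nat.mul_le_mul_left K hP
    rw [Nat.mul_add, Nat.mul_one] at hmul
    omega

theorem clean (K : ℕ) (H : Finset (Finset (Fin n))) (hH : ∀ e ∈ H, e.card = 3) :
    ∃ T ⊆ H, (∀ a b, (lk T a b).card = 0 ∨ K ≤ (lk T a b).card) ∧ H.card ≤ T.card + K * n ^ 2 := by
  obtain ⟨T, h1, h2, h3⟩ := ca_clean K H.card H le_rfl hH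
  refine ⟨T, h1, h2, h3.trans ?_⟩
  apply Nat.add_le_add_left
  apply Nat.mul_le_mul_left
  refine (Finset.card_filter_le _ _).trans ?_
  rw [Finset.card_univ, Fintype.card_prod, Fintype.card_fin, sq]

end Pool.Agent.FAN
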