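import Pool.Agent.FAN.Ca

/-!
# Fans (MP_c7cb83_co), module Cb: a centre with few bad pairs

Double counting of the bad pairs: the triples are counted by their ordered versions, and a bad pair with
fewer than `K` common neighbours is bad for fewer than `K` centres.
-/

set_option autoImplicit false

namespace Pool.Agent.FAN

open Finset

variable {n : ℕ}

/-- the bad pairs of `z` -/
def bad (T : Finset (Finset (Fin n))) (K : ℕ) (z : Fin n) : Finset (Fin n × Fin n) :=
  univ.filter (fun p => (lk T z p.1).Nonempty ∧ (lk T z p.2).Nonempty ∧ (nbh T p.1 ∩ nbh T p.2).card < K)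

private theorem cb_card_le (T : Finset (Finset (Fin n))) (hT : ∀ e ∈ T, e.card = 3) :
    T.card ≤ ∑ z : Fin n, ∑ a : Fin n, (lk T z a).card := by
  classical
  have h1 : (∑ z : Fin n, ∑ a : Fin n, (lk T z a).card)
      = ((univ : Finset (Fin n × Fin n × Fin n)).filter (fun p => p.2.2 ∈ lk T p.1 p.2.1)).card := by
    rw [Finset.card_filter, Fintype.sum_prod_type]
    refine Finset.sum_congr rfl fun z _ => ?_
    rw [Fintype.sum_prod_type]
    refine Finset.sum_congr rfl fun a _ => ?_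
    have h2 : lk T z a = univ.filter (fun w => w ∈ lk T z a) := by
      ext w; simp
    rw [h2, Finset.card_filter]
  rw [h1]
  have h3 : T ⊆ ((univ : Finset (Fin n × Fin n × Fin n)).filter (fun p => p.2.2 ∈ lk T p.1 p.2.1)).image
      (fun p => ({p.1, p.2.1, p.2.2} : Finset (Fin n))) := by
    intro t ht
    obtain ⟨x, y, w, _, _, _, rfl⟩ := Finset.card_eq_three.mp (hT t ht)
    rw [Finset.mem_image]
    exact ⟨(x, y, w), Finset.mem_filter.mpr ⟨Finset.mem_univ _, mem_lk.mpr ht⟩, rfl⟩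
  exact (Finset.card_le_card h3).trans Finset.card_image_le

private theorem cb_bad_le (T : Finset (Finset (Fin n))) (K : ℕ) :
    ∑ z : Fin n, (bad T K z).card ≤ K * n ^ 2 := by
  classical
  have h1 : ∀ z : Fin n, (bad T K z).card = ∑ p : Fin n × Fin n,
      (if (lk T z p.1).Nonempty ∧ (lk T z p.2).Nonempty ∧ (nbh T p.1 ∩ nbh T p.2).card < K then 1 else 0) := by
    intro z
    rw [bad, Finset.card_filter]
  rw [Finset.sum_congr rfl (fun z _ => h1 z), Finset.sum_comm]
  have h2 : ∀ p ∈ (univ : Finset (Fin n × Fin n)), (∑ z : Fin n,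
      (if (lk T z p.1).Nonempty ∧ (lk T z p.2).Nonempty ∧ (nbh T p.1 ∩ nbh T p.2).card < K then 1 else 0)) ≤ K := by
    intro p _
    rw [← Finset.card_filter]
    by_cases hK : (nbh T p.1 ∩ nbh T p.2).card < K
    · refine le_trans (Finset.card_le_card ?_) hK.le
      intro z hz
      obtain ⟨_, ha, hb, _⟩ := Finset.mem_filter.mp hz
      rw [Finset.mem_inter]
      exact ⟨nbh_comm.mp (mem_nbh.mpr ha), nbh_comm.mp (mem_nbh.mpr hb)⟩
    · have h3 : (univ.filter (fun z : Fin n => (lk T z p.1).Nonempty ∧ (lk T z p.2).Nonempty ∧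
          (nbh T p.1 ∩ nbh T p.2).card < K)) = ∅ := by
        apply Finset.filter_eq_empty_iff.mpr
        rintro z _ ⟨_, _, h4⟩
        exact hK h4
      rw [h3]
      simp
  refine (Finset.sum_le_card_nsmul _ _ _ h2).trans ?_
  rw [Finset.card_univ, Fintype.card_prod, Fintype.card_fin, smul_eq_mul]
  exact le_of_eq (by ring)

theorem exists_centre (T : Finset (Finset (Fin n))) (hT : ∀ e ∈ T, e.card = 3) (K : ℕ) {η : ℝ}
    (hη : 0 < η) (h : (K : ℝ) * (n : ℝ) ^ 2 < η * T.card) :
    ∃ z : Fin n, 0 < ∑ a, ((lk T z a).card : ℝ) ∧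
      ((bad T K z).card : ℝ) ≤ η * ∑ a, ((lk T z a).card : ℝ) := by
  classical
  by_contra hcon
  push Not at hcon
  have h1 : ∀ z ∈ (univ : Finset (Fin n)), η * ∑ a, ((lk T z a).card : ℝ) ≤ ((bad T K z).card : ℝ) := by
    intro z _
    by_cases h0 : 0 < ∑ a, ((lk T z a).card : ℝ)
    · exact (hcon z h0).le
    · have h2 : 0 ≤ ∑ a, ((lk T z a).card : ℝ) := Finset.sum_nonneg fun a _ => Nat.cast_nonneg _
      have h3 : ∑ a, ((lk T z a).card : ℝ) = 0 := le_antisymm (not_lt.mp h0) h2
      rw [h3, mul_zero]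
      exact Nat.cast_nonneg _
  have h2 := Finset.sum_le_sum h1
  rw [← Finset.mul_sum] at h2
  have h3 : (T.card : ℝ) ≤ ∑ z : Fin n, ∑ a : Fin n, ((lk T z a).card : ℝ) := by
    exact_mod_cast cb_card_le T hT
  have h4 : (∑ z : Fin n, ((bad T K z).card : ℝ)) ≤ (K : ℝ) * (n : ℝ) ^ 2 := by
    exact_mod_cast cb_bad_le T K
  have h5 := mul_le_mul_of_nonneg_left h3 hη.le
  linarith

end Pool.Agent.FAN
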