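import Mathlib

/-!
# Fans (MP_c7cb83_co), module Fo: a forest inside a rooted tree on the natural numbers

A finite nonempty acyclic graph has a vertex with at most one neighbour; a finite forest with a proper colouring by
two colours is embedded in a rooted tree on the natural numbers.
-/

set_option autoImplicit false

namespace Pool.Agent.FAN

open Finset

theorem leaf {V : Type} [Finite V] [Nonempty V] {G : SimpleGraph V} (h : G.IsAcyclic) :
    ∃ u, ∀ w w', G.Adj u w → G.Adj u w' → w = w' := by
  obtain ⟨u, v, p, hp, hmax⟩ := SimpleGraph.Walk.exists_isPath_forall_isPath_length_le_length G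
  have key : ∀ w, G.Adj u w → w = p.snd := by
    intro w hw
    by_cases hs : w ∈ p.support
    · exact h.eq_snd_of_adj_start hp hw hs
    · exfalso
      have h1 : (p.cons hw.symm).IsPath := hp.cons hs
      have h2 := hmax _ _ _ h1
      rw [SimpleGraph.Walk.length_cons] at h2
      omega
  exact ⟨u, fun w w' h1 h2 => (key w h1).trans (key w' h2).symm⟩

private theorem fo_aux {k : ℕ} (G : SimpleGraph (Fin k)) (F : Finset (Fin k))
    (hF : (G.induce {v : Fin k | v ∈ F}).IsAcyclic) (e : Fin k → Bool)
    (he : ∀ u ∈ F, ∀ v ∈ F, G.Adj u v → e u ≠ e v) (n : ℕ) :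
    ∀ W : Finset (Fin k), W ⊆ F → W.card = n →
      ∃ (par : ℕ → ℕ) (col : ℕ → Bool) (ι : Fin k → ℕ),
        (∀ i, 0 < i → par i < i) ∧ (∀ i, 0 < i → col (par i) ≠ col i) ∧ col 0 = false ∧
        col 1 = true ∧ (∀ v ∈ W, ι v ≤ n + 1 ∧ col (ι v) = e v) ∧
        (∀ u ∈ W, ∀ v ∈ W, ι u = ι v → u = v) ∧
        (∀ u ∈ W, ∀ v ∈ W, G.Adj u v → (0 < ι u ∧ par (ι u) = ι v) ∨ (0 < ι v ∧ par (ι v) = ι u)) ∧
        ∀ i, n + 1 < i → par i = 0 := by
  induction n with
  | zero =>
    intro W hW hc
    have hW0 : W = ∅ := Finset.card_eq_zero.1 hc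
    subst hW0
    refine ⟨fun _ => 0, fun i => decide (i ≠ 0), fun _ => 0, fun i hi => hi, fun i hi => ?_, rfl, rfl, ?_, ?_, ?_,
      fun _ _ => rfl⟩
    · have h1 : decide (i ≠ 0) = true := decide_eq_true (by omega)
      show decide ((0 : ℕ) ≠ 0) ≠ decide (i ≠ 0)
      rw [h1]
      exact Bool.false_ne_true
    · intro v hv
      exact absurd hv (Finset.notMem_empty v)
    · intro v hv
      exact absurd hv (Finset.notMem_empty v)
    · intro v hv
      exact absurd hv (Finset.notMem_empty v)
  | succ n ih =>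
    intro W hW hc
    have hne : W.Nonempty := by
      rw [← Finset.card_pos]
      omega
    have hac : (G.induce {v : Fin k | v ∈ W}).IsAcyclic :=
      hF.embedding (SimpleGraph.induceHomOfLE G (fun v hv => hW hv))
    have : Nonempty {v : Fin k | v ∈ W} := ⟨⟨hne.choose, hne.choose_spec⟩⟩
    obtain ⟨⟨w, hw⟩, hlf⟩ := leaf hac
    have hww : w ∈ W := hw
    have hlf' : ∀ u ∈ W, ∀ u' ∈ W, G.Adj w u → G.Adj w u' → u = u' := by
      intro u hu u' hu' h1 h2
      have h3 := hlf ⟨u, hu⟩ ⟨u', hu'⟩ h1 h2
      exact congrArg Subtype.val h3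
    obtain ⟨par, col, ι, h1, h2, h3, h4, h5, h6, h7, h8⟩ := ih (W.erase w)
      ((Finset.erase_subset w W).trans hW) (by rw [Finset.card_erase_of_mem hww, hc]; rfl)
    obtain ⟨p, hp, hpc, hpa⟩ : ∃ p, p < n + 2 ∧ col p ≠ e w ∧ ∀ u ∈ W, G.Adj w u → p = ι u := by
      by_cases hu : ∃ u ∈ W, G.Adj w u
      · obtain ⟨u, hu, ha⟩ := hu
        have hu' : u ∈ W.erase w := Finset.mem_erase.2 ⟨(G.ne_of_adj ha).symm, hu⟩
        refine ⟨ι u, ?_, ?_, ?_⟩
        · have := (h5 u hu').1
          omega
        · rw [(h5 u hu').2]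
          exact he u (hW hu) w (hW hww) ha.symm
        · intro u' hu'' ha'
          rw [hlf' u hu u' hu'' ha ha']
      · refine ⟨if e w = true then 0 else 1, ?_, ?_, ?_⟩
        · split_ifs
          all_goals omega
        · split_ifs with hc
          · rw [h3, hc]
            exact Bool.false_ne_true
          · rw [h4]
            exact fun h => hc h.symm
        · intro u hu' ha
          exact absurd ⟨u, hu', ha⟩ hu
    have par1 : ∀ i, i ≠ n + 2 → Function.update par (n + 2) p i = par i :=
      fun i hi => Function.update_of_ne hi _ _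
    have par2 : Function.update par (n + 2) p (n + 2) = p := Function.update_self _ _ _
    have col1 : ∀ i, i ≠ n + 2 → Function.update col (n + 2) (e w) i = col i :=
      fun i hi => Function.update_of_ne hi _ _
    have col2 : Function.update col (n + 2) (e w) (n + 2) = e w := Function.update_self _ _ _
    have io1 : ∀ i, i ≠ w → Function.update ι w (n + 2) i = ι i :=
      fun i hi => Function.update_of_ne hi _ _
    have io2 : Function.update ι w (n + 2) w = n + 2 := Function.update_self _ _ _
    have hle : ∀ v ∈ W, v ≠ w → ι v ≤ n + 1 := fun v hv hvw => (h5 v (Finset.mem_erase.2 ⟨hvw, hv⟩)).1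
    refine ⟨Function.update par (n + 2) p, Function.update col (n + 2) (e w), Function.update ι w (n + 2),
      ?_, ?_, ?_, ?_, ?_, ?_, ?_, ?_⟩
    · intro i hi
      by_cases hin : i = n + 2
      · rw [hin, par2]
        exact hp
      · rw [par1 i hin]
        exact h1 i hi
    · intro i hi
      by_cases hin : i = n + 2
      · rw [hin, par2, col2, col1 p (by omega)]
        exact hpc
      · have hpi : par i ≠ n + 2 := by
          rcases Nat.lt_or_ge (n + 1) i with h | h
          · rw [h8 i h]
            omega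
          · have := h1 i hi
            omega
        rw [par1 i hin, col1 _ hpi, col1 i hin]
        exact h2 i hi
    · rw [col1 0 (by omega)]
      exact h3
    · rw [col1 1 (by omega)]
      exact h4
    · intro v hv
      by_cases hvw : v = w
      · rw [hvw, io2, col2]
        exact ⟨le_rfl, rfl⟩
      · have h9 := h5 v (Finset.mem_erase.2 ⟨hvw, hv⟩)
        rw [io1 v hvw, col1 _ (by omega)]
        exact ⟨by omega, h9.2⟩
    · intro u hu v hv huv
      by_cases huw : u = w
      · by_cases hvw : v = w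
        · rw [huw, hvw]
        · exfalso
          rw [huw, io2, io1 v hvw] at huv
          have := hle v hv hvw
          omega
      · by_cases hvw : v = w
        · exfalso
          rw [hvw, io2, io1 u huw] at huv
          have := hle u hu huw
          omega
        · rw [io1 u huw, io1 v hvw] at huv
          exact h6 u (Finset.mem_erase.2 ⟨huw, hu⟩) v (Finset.mem_erase.2 ⟨hvw, hv⟩) huv
    · intro u hu v hv ha
      by_cases huw : u = w
      · left
        have hvw : v ≠ w := fun h => G.ne_of_adj ha (huw.trans h.symm)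
        rw [huw, io2, io1 v hvw, par2]
        exact ⟨by omega, hpa v hv (huw ▸ ha)⟩
      · by_cases hvw : v = w
        · right
          rw [hvw, io2, io1 u huw, par2]
          exact ⟨by omega, hpa u hu (hvw ▸ ha.symm)⟩
        · have h9 := hle u hu huw
          have h10 := hle v hv hvw
          rw [io1 u huw, io1 v hvw, par1 _ (by omega), par1 _ (by omega)]
          exact h7 u (Finset.mem_erase.2 ⟨huw, hu⟩) v (Finset.mem_erase.2 ⟨hvw, hv⟩) ha
    · intro i hi
      rw [par1 i (by omega)]
      exact h8 i (by omega)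

theorem forest_par {k : ℕ} (G : SimpleGraph (Fin k)) (F : Finset (Fin k))
    (hF : (G.induce {v : Fin k | v ∈ F}).IsAcyclic) (e : Fin k → Bool)
    (he : ∀ u ∈ F, ∀ v ∈ F, G.Adj u v → e u ≠ e v) :
    ∃ (N : ℕ) (par : ℕ → ℕ) (col : ℕ → Bool) (ι : Fin k → ℕ),
      1 ≤ N ∧ (∀ i, 0 < i → par i < i) ∧ (∀ i, 0 < i → col (par i) ≠ col i) ∧ col 0 = false ∧
      col 1 = true ∧ (∀ v ∈ F, ι v ≤ N ∧ col (ι v) = e v) ∧
      (∀ u ∈ F, ∀ v ∈ F, ι u = ι v → u = v) ∧
      ∀ u ∈ F, ∀ v ∈ F, G.Adj u v → (0 < ι u ∧ par (ι u) = ι v) ∨ (0 < ι v ∧ par (ι v) = ι u) := by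
  obtain ⟨par, col, ι, h1, h2, h3, h4, h5, h6, h7, -⟩ := fo_aux G F hF e he F.card F (Finset.Subset.refl F) rfl
  exact ⟨F.card + 1, par, col, ι, Nat.le_add_left 1 F.card, h1, h2, h3, h4, h5, h6, h7⟩

end Pool.Agent.FAN
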