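import Pool.Agent.FAN.Ga

/-!
# Fans (MP_c7cb83_co), module Gb: choice of the expansion vertices

PLAN.  Hall's theorem (`Finset.all_card_le_biUnion_card_iff_exists_injective`) for the index type `{e // e ∈ G.edgeSet}` (at most `k * k` elements: it injects into `Fin k × Fin k` up to the choice of a representative, e.g.
`Fintype.card (Sym2 (Fin k)) ≤ k * k` by the surjection `Fin k × Fin k → Sym2 (Fin k)`) and the sets `(univ.filter (fun w => ∃ u v, e = s(u, v) ∧ ({f u, f v, w} : Finset (Fin n)) ∈ T)) \ univ.image f`; each has at least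
`k + k * k - k` elements (it contains `lk T (f u) (f v) \ univ.image f`), which is at least the number of indices.  Then `g e = if h : e ∈ G.edgeSet then g' ⟨e, h⟩ else z0`.  For `G.Adj u v`: `g s(u, v)` is in
the set of `s(u, v) = s(u', v')`, and `{f u', f v', w} = {f u, f v, w}` (`Sym2.eq_iff`, `Finset.insert_comm`).
-/

set_option autoImplicit false

namespace Pool.Agent.FAN

open Finset

variable {n k : ℕ}

private theorem gb_mem {T : Finset (Finset (Fin n))} {a b x : Fin n} (h : x ∈ lk T a b) :
    ({a, b, x} : Finset (Fin n)) ∈ T := (Finset.mem_filter.1 h).2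

theorem expand {T : Finset (Finset (Fin n))} {G : SimpleGraph (Fin k)} {f : Fin k → Fin n}
    (hE : Emb T G univ f) (hK : ∀ a b, (lk T a b).card = 0 ∨ k + k * k ≤ (lk T a b).card) (z0 : Fin n) :
    ∃ g : Sym2 (Fin k) → Fin n, Set.InjOn g G.edgeSet ∧ (∀ e ∈ G.edgeSet, ∀ v : Fin k, g e ≠ f v) ∧
      ∀ u v : Fin k, G.Adj u v → ({f u, f v, g s(u, v)} : Finset (Fin n)) ∈ T := by
  classical
  obtain ⟨hE1, hE2, hE3⟩ := hE
  let t : {e // e ∈ G.edgeSet} → Finset (Fin n) := fun e =>
    (univ.filter (fun w => ∃ u v, e.1 = s(u, v) ∧ ({f u, f v, w} : Finset (Fin n)) ∈ T)) \ univ.image f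
  have hcard : Fintype.card {e // e ∈ G.edgeSet} ≤ k * k := by
    have h1 : Fintype.card {e // e ∈ G.edgeSet} ≤ Fintype.card (Sym2 (Fin k)) :=
      Fintype.card_subtype_le _
    have h2 : Fintype.card (Sym2 (Fin k)) ≤ Fintype.card (Fin k × Fin k) :=
      Fintype.card_le_of_surjective (fun p : Fin k × Fin k => s(p.1, p.2)) (by
        intro e
        induction e using Sym2.inductionOn with
        | hf x y => exact ⟨(x, y), rfl⟩)
    rw [Fintype.card_prod, Fintype.card_fin] at h2
    exact h1.trans h2
  have hbig : ∀ e, k * k ≤ (t e).card := by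
    rintro ⟨e, he⟩
    induction e using Sym2.inductionOn with
    | hf u v =>
      have hadj : G.Adj u v := (SimpleGraph.mem_edgeSet G).1 he
      have hne := hE3 u (Finset.mem_univ u) v (Finset.mem_univ v) hadj
      have h1 : k + k * k ≤ (lk T (f u) (f v)).card := by
        rcases hK (f u) (f v) with h | h
        · rw [Finset.card_eq_zero] at h
          rw [h] at hne
          exact (Finset.not_nonempty_empty hne).elim
        · exact h
      have h2 : lk T (f u) (f v) \ univ.image f ⊆ t ⟨s(u, v), he⟩ := by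
        intro x hx
        obtain ⟨hx1, hx2⟩ := Finset.mem_sdiff.1 hx
        refine Finset.mem_sdiff.2 ⟨Finset.mem_filter.2 ⟨Finset.mem_univ x, u, v, rfl, gb_mem hx1⟩, hx2⟩
      have h3 : (univ.image f).card ≤ k := by
        have h4 : (univ.image f).card ≤ (univ : Finset (Fin k)).card := Finset.card_image_le
        rwa [Finset.card_univ, Fintype.card_fin] at h4
      have h5 := Finset.le_card_sdiff (univ.image f) (lk T (f u) (f v))
      have h6 := Finset.card_le_card h2
      omega
  have hall : ∀ s : Finset {e // e ∈ G.edgeSet}, s.card ≤ (s.biUnion t).card := by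
    intro s
    rcases s.eq_empty_or_nonempty with rfl | ⟨e, he⟩
    · simp
    · have h1 : s.card ≤ Fintype.card {e // e ∈ G.edgeSet} := Finset.card_le_univ s
      have h2 : (t e).card ≤ (s.biUnion t).card :=
        Finset.card_le_card (Finset.subset_biUnion_of_mem t he)
      exact h1.trans (hcard.trans ((hbig e).trans h2))
  obtain ⟨g', hg1, hg2⟩ := (Finset.all_card_le_biUnion_card_iff_exists_injective t).1 hall
  refine ⟨fun e => if h : e ∈ G.edgeSet then g' ⟨e, h⟩ else z0, ?_, ?_, ?_⟩
  · intro e he e' he' h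
    simp only [dif_pos he, dif_pos he'] at h
    exact congrArg Subtype.val (hg1 h)
  · intro e he v h
    simp only [dif_pos he] at h
    have h1 := (Finset.mem_sdiff.1 (hg2 ⟨e, he⟩)).2
    exact h1 (Finset.mem_image.2 ⟨v, Finset.mem_univ v, h.symm⟩)
  · intro u v huv
    have he : s(u, v) ∈ G.edgeSet := (SimpleGraph.mem_edgeSet G).2 huv
    simp only [dif_pos he]
    obtain ⟨u', v', h1, h2⟩ := (Finset.mem_filter.1 (Finset.mem_sdiff.1 (hg2 ⟨s(u, v), he⟩)).1).2
    generalize g' ⟨s(u, v), he⟩ = w at h2 ⊢
    have h1' : s(u, v) = s(u', v') := h1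
    rcases Sym2.eq_iff.1 h1' with ⟨h3, h4⟩ | ⟨h3, h4⟩
    · rw [h3, h4]
      exact h2
    · rw [h3, h4, Finset.insert_comm]
      exact h2

end Pool.Agent.FAN
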