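import Pool.Agent.FAN.Te
import Pool.Agent.FAN.Cb
import Pool.Agent.FAN.Fo
import Pool.Agent.FAN.Gb

/-!
# Fans (MP_c7cb83_co): assembly
-/

set_option autoImplicit false

namespace Pool.Agent.FAN

open Finset

/-- the core embedding into the link of a good centre -/
private theorem fin_core {n k N : ℕ} {T : Finset (Finset (Fin n))} (hT : ∀ e ∈ T, e.card = 3)
    {G : SimpleGraph (Fin k)} {S : Finset (Fin k)} {c : Fin k → Fin 3} {z : Fin k}
    (h1 : ∀ u ∈ S, ∀ v ∈ S, G.Adj u v → c u ≠ c v)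
    {par : ℕ → ℕ} {ι : Fin k → ℕ} {φ : ℕ → Fin n} {y : Fin n}
    (hι : ∀ v ∈ S, c v ≠ 2 → ι v ≤ N)
    (hι2 : ∀ u ∈ S, c u ≠ 2 → ∀ v ∈ S, c v ≠ 2 → ι u = ι v → u = v)
    (hι3 : ∀ u ∈ S, c u ≠ 2 → ∀ v ∈ S, c v ≠ 2 → G.Adj u v →
      (0 < ι u ∧ par (ι u) = ι v) ∨ (0 < ι v ∧ par (ι v) = ι u))
    (hφ1 : ∀ i ≤ N, ∀ j ≤ N, φ i = φ j → i = j) (hφ2 : ∀ i ≤ N, (lk T y (φ i)).Nonempty)
    (hφ3 : ∀ i, 0 < i → i ≤ N → φ i ∈ lk T y (φ (par i))) :
    Emb T G (S.filter fun v => c v ≠ 2 ∨ v = z) (fun v => if c v ≠ 2 then φ (ι v) else y) := by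
  have hy : ∀ i ≤ N, φ i ≠ y := by
    intro i hi h
    obtain ⟨w, hw⟩ := hφ2 i hi
    exact (lk_ne hT hw).1 h.symm
  have hadj : ∀ i ≤ N, ∀ j, 0 < i → par i = j → (lk T (φ i) (φ j)).Nonempty := by
    intro i hi j h0 hj
    have h2 := hφ3 i h0 hi
    rw [hj] at h2
    have h3 : φ j ∈ lk T y (φ i) := lk_rot h2
    rw [lk_comm] at h3
    exact ⟨y, lk_rot h3⟩
  refine ⟨?_, ?_, ?_⟩
  · intro u hu v hv h
    simp only [Finset.mem_filter] at hu hv
    by_cases h2 : c u ≠ 2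
    · by_cases h3 : c v ≠ 2
      · simp only [if_pos h2, if_pos h3] at h
        exact hι2 u hu.1 h2 v hv.1 h3 (hφ1 _ (hι u hu.1 h2) _ (hι v hv.1 h3) h)
      · simp only [if_pos h2, if_neg h3] at h
        exact absurd h (hy _ (hι u hu.1 h2))
    · by_cases h3 : c v ≠ 2
      · simp only [if_neg h2, if_pos h3] at h
        exact absurd h.symm (hy _ (hι v hv.1 h3))
      · rcases hu.2 with h4 | h4
        · exact absurd h4 h2
        · rcases hv.2 with h5 | h5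
          · exact absurd h5 h3
          · rw [h4, h5]
  · intro u hu
    simp only [Finset.mem_filter] at hu
    by_cases h2 : c u ≠ 2
    · simp only [if_pos h2]
      exact ⟨y, nbh_comm.1 (mem_nbh.2 (hφ2 _ (hι u hu.1 h2)))⟩
    · simp only [if_neg h2]
      exact ⟨φ 0, mem_nbh.2 (hφ2 0 (Nat.zero_le _))⟩
  · intro u hu v hv h
    simp only [Finset.mem_filter] at hu hv
    by_cases h2 : c u ≠ 2
    · by_cases h3 : c v ≠ 2
      · simp only [if_pos h2, if_pos h3]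
        rcases hι3 u hu.1 h2 v hv.1 h3 h with ⟨h4, h5⟩ | ⟨h4, h5⟩
        · exact hadj _ (hι u hu.1 h2) _ h4 h5
        · rw [lk_comm]
          exact hadj _ (hι v hv.1 h3) _ h4 h5
      · simp only [if_pos h2, if_neg h3]
        rw [lk_comm]
        exact hφ2 _ (hι u hu.1 h2)
    · by_cases h3 : c v ≠ 2
      · simp only [if_neg h2, if_pos h3]
        exact hφ2 _ (hι v hv.1 h3)
      · exact absurd ((not_not.1 h2).trans (not_not.1 h3).symm) (h1 u hu.1 v hv.1 h)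

theorem fan_main (k : ℕ) (G : SimpleGraph (Fin k)) (S : Finset (Fin k)) (c : Fin k → Fin 3) (z : Fin k)
    (h1 : ∀ u ∈ S, ∀ v ∈ S, G.Adj u v → c u ≠ c v)
    (h2 : (G.induce {v : Fin k | v ∈ S ∧ c v ≠ 2}).IsAcyclic)
    (h3 : ∀ v ∈ S, v ≠ z → c v = 2 → ∀ x ∈ S, ∀ y ∈ S, G.Adj v x → G.Adj v y → c x = c y → x = y)
    (h4 : ∀ v ∉ S, ∀ x y, G.Adj v x → G.Adj v y → (x ∈ S ∨ x < v) → (y ∈ S ∨ y < v) → x ≠ y → G.Adj x y)
    (h5 : ∀ v ∉ S, ∀ x y w, G.Adj v x → G.Adj v y → G.Adj v w → (x ∈ S ∨ x < v) → (y ∈ S ∨ y < v) →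
      (w ∈ S ∨ w < v) → x = y ∨ x = w ∨ y = w) :
    ∃ C : ℝ, ∀ (n : ℕ) (H : Finset (Finset (Fin n))),
      (∀ e ∈ H, e.card = 3) →
      (¬ ∃ f : Fin k → Fin n, ∃ g : Sym2 (Fin k) → Fin n,
          Function.Injective f ∧ Set.InjOn g G.edgeSet ∧
          (∀ e ∈ G.edgeSet, ∀ v : Fin k, g e ≠ f v) ∧
          ∀ u v : Fin k, G.Adj u v → ({f u, f v, g s(u, v)} : Finset (Fin n)) ∈ H) →
      (H.card : ℝ) ≤ C * (n : ℝ) ^ 2 := by
  classical
  have hF : (G.induce {v : Fin k | v ∈ S.filter fun v => c v ≠ 2}).IsAcyclic := by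
    have hset : {v : Fin k | v ∈ S.filter fun v => c v ≠ 2} = {v : Fin k | v ∈ S ∧ c v ≠ 2} := by
      ext v
      simp only [Set.mem_ofPred_eq, Finset.mem_filter]
    rw [hset]
    exact h2
  have h012 : ∀ i : Fin 3, i ≠ 2 → i = 0 ∨ i = 1 := by decide
  obtain ⟨N, par, col, ι, hN, hpar, hcol, hc0, hc1, hι, hι2, hι3⟩ :=
    forest_par G (S.filter fun v => c v ≠ 2) hF (fun v => decide (c v = 1)) (by
      intro u hu v hv h
      simp only [Finset.mem_filter] at hu hv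
      have h6 := h1 u hu.1 v hv.1 h
      rcases h012 _ hu.2 with h7 | h7 <;> rcases h012 _ hv.2 with h8 | h8
      · exact absurd (h7.trans h8.symm) h6
      · simp [h7, h8]
      · simp [h7, h8]
      · exact absurd (h7.trans h8.symm) h6)
  obtain ⟨K1, η, hK1, hη, htree⟩ := tree_lemma N par hpar col hcol
  refine ⟨((K1 + k + k * k : ℕ) : ℝ) + (k : ℝ) / η, fun n H hH hno => ?_⟩
  obtain ⟨T, hTH, hTK, hcard⟩ := clean (K1 + k + k * k) H hH
  have hT : ∀ e ∈ T, e.card = 3 := fun e he => hH e (hTH he)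
  have hmain : ¬ ((k : ℝ) * (n : ℝ) ^ 2 < η * T.card) := by
    intro hlt
    obtain ⟨y, hy1, hy2⟩ := exists_centre T hT k hη hlt
    obtain ⟨φ, hφ1, hφ2, hφ3, hφ4⟩ := htree (Fin n) (fun u => lk T y u)
      (fun u x h => lk_rot h)
      (fun u => by
        rcases hTK y u with h | h
        · exact Or.inl h
        · exact Or.inr (by omega))
      hy1 (bad T k y) hy2
    apply hno
    -- the core
    have hcore : Emb T G (S.filter fun v => c v ≠ 2 ∨ v = z) (fun v => if c v ≠ 2 then φ (ι v) else y) := by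
      refine fin_core (N := N) (par := par) hT h1 (fun v hv h => (hι v (Finset.mem_filter.2 ⟨hv, h⟩)).1)
        (fun u hu hu2 v hv hv2 h => hι2 u (Finset.mem_filter.2 ⟨hu, hu2⟩) v (Finset.mem_filter.2 ⟨hv, hv2⟩) h)
        (fun u hu hu2 v hv hv2 h => hι3 u (Finset.mem_filter.2 ⟨hu, hu2⟩) v (Finset.mem_filter.2 ⟨hv, hv2⟩) h)
        hφ1 hφ2 hφ3
    -- the other vertices of the third class
    have hgood : ∀ p ≤ N, ∀ q ≤ N, col p ≠ col q → k ≤ (nbh T (φ p) ∩ nbh T (φ q)).card := by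
      intro p hp q hq hpq
      have h6 := hφ4 p hp q hq hpq
      by_contra h7
      apply h6
      unfold bad
      rw [Finset.mem_filter]
      exact ⟨Finset.mem_univ _, hφ2 p hp, hφ2 q hq, not_le.1 h7⟩
    have hmany : ∃ f, Emb T G ((S.filter fun v => c v ≠ 2 ∨ v = z) ∪ S.filter fun v => c v = 2 ∧ v ≠ z) f := by
      refine emb_many hcore _ ?_ ?_ ?_
      · intro v hv hv2
        simp only [Finset.mem_filter] at hv hv2
        rcases hv2.2 with h6 | h6
        · exact h6 hv.2.1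
        · exact hv.2.2 h6
      · intro u hu v hv h
        simp only [Finset.mem_filter] at hu hv
        exact h1 u hu.1 v hv.1 h (hu.2.1.trans hv.2.1.symm)
      · intro v hv
        simp only [Finset.mem_filter] at hv
        have hp : ∃ p ≤ N, col p = false ∧ ∀ u ∈ S, c u = 0 → G.Adj v u → φ (ι u) = φ p := by
          by_cases h6 : ∃ a ∈ S, c a = 0 ∧ G.Adj v a
          · obtain ⟨a, ha, ha0, hva⟩ := h6
            have h7 := hι a (Finset.mem_filter.2 ⟨ha, by rw [ha0]; decide⟩)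
            refine ⟨ι a, h7.1, ?_, fun u hu hu0 hvu => ?_⟩
            · rw [h7.2, ha0]
              decide
            · rw [h3 v hv.1 hv.2.2 hv.2.1 u hu a ha hvu hva (hu0.trans ha0.symm)]
          · exact ⟨0, Nat.zero_le _, hc0, fun u hu hu0 hvu => absurd ⟨u, hu, hu0, hvu⟩ h6⟩
        have hq : ∃ q ≤ N, col q = true ∧ ∀ u ∈ S, c u = 1 → G.Adj v u → φ (ι u) = φ q := by
          by_cases h6 : ∃ a ∈ S, c a = 1 ∧ G.Adj v a
          · obtain ⟨a, ha, ha0, hva⟩ := h6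
            have h7 := hι a (Finset.mem_filter.2 ⟨ha, by rw [ha0]; decide⟩)
            refine ⟨ι a, h7.1, ?_, fun u hu hu0 hvu => ?_⟩
            · rw [h7.2, ha0]
              decide
            · rw [h3 v hv.1 hv.2.2 hv.2.1 u hu a ha hvu hva (hu0.trans ha0.symm)]
          · exact ⟨1, hN, hc1, fun u hu hu0 hvu => absurd ⟨u, hu, hu0, hvu⟩ h6⟩
        obtain ⟨p, hpN, hpc, hp2⟩ := hp
        obtain ⟨q, hqN, hqc, hq2⟩ := hq
        refine ⟨nbh T (φ p) ∩ nbh T (φ q), hgood p hpN q hqN (by rw [hpc, hqc]; decide), ?_, ?_⟩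
        · intro x hx
          exact ⟨φ p, nbh_comm.1 (Finset.mem_inter.1 hx).1⟩
        · intro x hx u hu hvu
          simp only [Finset.mem_filter] at hu
          have h6 : c u ≠ 2 := fun h7 => h1 v hv.1 u hu.1 hvu (hv.2.1.trans h7.symm)
          simp only [if_pos h6]
          rcases h012 _ h6 with h7 | h7
          · rw [hp2 u hu.1 h7 hvu]
            exact mem_nbh.1 (Finset.mem_inter.1 hx).1
          · rw [hq2 u hu.1 h7 hvu]
            exact mem_nbh.1 (Finset.mem_inter.1 hx).2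
    obtain ⟨f1, hf1⟩ := hmany
    have hS : (S.filter fun v => c v ≠ 2 ∨ v = z) ∪ (S.filter fun v => c v = 2 ∧ v ≠ z) = S := by
      ext v
      simp only [Finset.mem_union, Finset.mem_filter]
      constructor
      · rintro (h | h)
        · exact h.1
        · exact h.1
      · intro h
        by_cases h6 : c v = 2
        · by_cases h7 : v = z
          · exact Or.inl ⟨h, Or.inr h7⟩
          · exact Or.inr ⟨h, h6, h7⟩
        · exact Or.inl ⟨h, Or.inl h6⟩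
    rw [hS] at hf1
    obtain ⟨f, hf⟩ := emb_close hf1 (fun a b => by
        rcases hTK a b with h | h
        · exact Or.inl h
        · exact Or.inr (by omega)) ⟨y, φ 0, hφ2 0 (Nat.zero_le _)⟩ h4 h5
    obtain ⟨g, hg1, hg2, hg3⟩ := expand hf (fun a b => by
        rcases hTK a b with h | h
        · exact Or.inl h
        · exact Or.inr (by omega)) y
    exact ⟨f, g, fun u v h => hf.1 u (Finset.mem_univ _) v (Finset.mem_univ _) h, hg1, hg2,
      fun u v h => hTH (hg3 u v h)⟩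
  have h6 : (T.card : ℝ) ≤ (k : ℝ) / η * (n : ℝ) ^ 2 := by
    rw [not_lt] at hmain
    rw [div_mul_eq_mul_div, le_div_iff₀ hη]
    linarith
  have h7 : (H.card : ℝ) ≤ T.card + ((K1 + k + k * k : ℕ) : ℝ) * (n : ℝ) ^ 2 := by
    exact_mod_cast hcard
  calc (H.card : ℝ) ≤ T.card + ((K1 + k + k * k : ℕ) : ℝ) * (n : ℝ) ^ 2 := h7
    _ ≤ (k : ℝ) / η * (n : ℝ) ^ 2 + ((K1 + k + k * k : ℕ) : ℝ) * (n : ℝ) ^ 2 := by linarith
    _ = (((K1 + k + k * k : ℕ) : ℝ) + (k : ℝ) / η) * (n : ℝ) ^ 2 := by ring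

end Pool.Agent.FAN
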