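import Pool.Agent.FAN.Ca

/-!
# Fans (MP_c7cb83_co), module Ga: greedy extension of an embedding into the shadow graph

One vertex (`emb_add`), an independent set of vertices (`emb_many`) and all remaining vertices in
increasing order (`emb_close`) are added to an embedding.
-/

set_option autoImplicit false

namespace Pool.Agent.FAN

open Finset

variable {n k : ℕ}

/-- `f` embeds `G[P]` into the shadow graph of `T` -/
def Emb (T : Finset (Finset (Fin n))) (G : SimpleGraph (Fin k)) (P : Finset (Fin k)) (f : Fin k → Fin n) : Prop :=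
  (∀ u ∈ P, ∀ v ∈ P, f u = f v → u = v) ∧ (∀ u ∈ P, (nbh T (f u)).Nonempty) ∧
    ∀ u ∈ P, ∀ v ∈ P, G.Adj u v → (lk T (f u) (f v)).Nonempty

theorem emb_add {T : Finset (Finset (Fin n))} {G : SimpleGraph (Fin k)} {P : Finset (Fin k)}
    {f : Fin k → Fin n} (hE : Emb T G P f) {v : Fin k} (hv : v ∉ P) {X : Finset (Fin n)}
    (hX : k ≤ X.card) (h1 : ∀ x ∈ X, (nbh T x).Nonempty)
    (h2 : ∀ x ∈ X, ∀ u ∈ P, G.Adj v u → (lk T (f u) x).Nonempty) :
    ∃ x ∈ X, Emb T G (insert v P) (Function.update f v x) := by
  obtain ⟨hE1, hE2, hE3⟩ := hE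
  have hc : (P.image f).card < X.card := by
    have h3 : P.card < Fintype.card (Fin k) := Finset.card_lt_univ_of_notMem hv
    rw [Fintype.card_fin] at h3
    exact lt_of_le_of_lt Finset.card_image_le (lt_of_lt_of_le h3 hX)
  obtain ⟨x, hx, hxP⟩ := Finset.exists_mem_notMem_of_card_lt_card hc
  have hne : ∀ u ∈ P, u ≠ v := by
    rintro u hu rfl
    exact hv hu
  have hg : ∀ u ∈ P, Function.update f v x u = f u := fun u hu => Function.update_of_ne (hne u hu) _ _
  have hgv : Function.update f v x v = x := Function.update_self _ _ _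
  have hxf : ∀ u ∈ P, f u ≠ x := by
    intro u hu h
    exact hxP (Finset.mem_image.2 ⟨u, hu, h⟩)
  refine ⟨x, hx, ?_, ?_, ?_⟩
  · intro u hu w hw h
    rcases Finset.mem_insert.1 hu with rfl | hu1
    · rcases Finset.mem_insert.1 hw with rfl | hw1
      · rfl
      · rw [hgv, hg w hw1] at h
        exact (hxf w hw1 h.symm).elim
    · rcases Finset.mem_insert.1 hw with rfl | hw1
      · rw [hgv, hg u hu1] at h
        exact (hxf u hu1 h).elim
      · rw [hg u hu1, hg w hw1] at h
        exact hE1 u hu1 w hw1 h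
  · intro u hu
    rcases Finset.mem_insert.1 hu with rfl | hu1
    · rw [hgv]
      exact h1 x hx
    · rw [hg u hu1]
      exact hE2 u hu1
  · intro u hu w hw h
    rcases Finset.mem_insert.1 hu with rfl | hu1
    · rcases Finset.mem_insert.1 hw with rfl | hw1
      · exact (G.ne_of_adj h rfl).elim
      · rw [hgv, hg w hw1, lk_comm]
        exact h2 x hx w hw1 h
    · rcases Finset.mem_insert.1 hw with rfl | hw1
      · rw [hgv, hg u hu1]
        exact h2 x hx u hu1 h.symm
      · rw [hg u hu1, hg w hw1]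
        exact hE3 u hu1 w hw1 h

private theorem ga_many {T : Finset (Finset (Fin n))} {G : SimpleGraph (Fin k)} {P : Finset (Fin k)}
    {f0 : Fin k → Fin n} (hE : Emb T G P f0) (Q : Finset (Fin k)) (hQ : ∀ v ∈ Q, v ∉ P)
    (hQQ : ∀ u ∈ Q, ∀ v ∈ Q, ¬ G.Adj u v)
    (h : ∀ v ∈ Q, ∃ X : Finset (Fin n), k ≤ X.card ∧ (∀ x ∈ X, (nbh T x).Nonempty) ∧
      ∀ x ∈ X, ∀ u ∈ P, G.Adj v u → (lk T (f0 u) x).Nonempty) :
    ∃ f, Emb T G (P ∪ Q) f ∧ ∀ u ∈ P, f u = f0 u := by
  induction Q using Finset.induction_on with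
  | empty =>
    refine ⟨f0, ?_, fun u _ => rfl⟩
    rw [Finset.union_empty]
    exact hE
  | insert a Q ha ih =>
    obtain ⟨f, hf, hf0⟩ := ih (fun v hv => hQ v (Finset.mem_insert_of_mem hv))
      (fun u hu v hv => hQQ u (Finset.mem_insert_of_mem hu) v (Finset.mem_insert_of_mem hv))
      (fun v hv => h v (Finset.mem_insert_of_mem hv))
    have haP : a ∉ P := hQ a (Finset.mem_insert_self a Q)
    have haPQ : a ∉ P ∪ Q := by
      intro h1
      rcases Finset.mem_union.1 h1 with h1 | h1
      · exact haP h1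
      · exact ha h1
    obtain ⟨X, hX, hX1, hX2⟩ := h a (Finset.mem_insert_self a Q)
    obtain ⟨x, -, hx⟩ := emb_add hf haPQ hX hX1 (by
      intro x hx u hu hadj
      rcases Finset.mem_union.1 hu with h1 | h1
      · rw [hf0 u h1]
        exact hX2 x hx u h1 hadj
      · exact (hQQ a (Finset.mem_insert_self a Q) u (Finset.mem_insert_of_mem h1) hadj).elim)
    refine ⟨Function.update f a x, ?_, ?_⟩
    · rw [Finset.union_insert]
      exact hx
    · intro u hu
      have h1 : u ≠ a := by
        rintro rfl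
        exact haP hu
      rw [Function.update_of_ne h1]
      exact hf0 u hu

theorem emb_many {T : Finset (Finset (Fin n))} {G : SimpleGraph (Fin k)} {P : Finset (Fin k)}
    {f0 : Fin k → Fin n} (hE : Emb T G P f0) (Q : Finset (Fin k)) (hQ : ∀ v ∈ Q, v ∉ P)
    (hQQ : ∀ u ∈ Q, ∀ v ∈ Q, ¬ G.Adj u v)
    (h : ∀ v ∈ Q, ∃ X : Finset (Fin n), k ≤ X.card ∧ (∀ x ∈ X, (nbh T x).Nonempty) ∧
      ∀ x ∈ X, ∀ u ∈ P, G.Adj v u → (lk T (f0 u) x).Nonempty) :
    ∃ f, Emb T G (P ∪ Q) f := by
  obtain ⟨f, hf, -⟩ := ga_many hE Q hQ hQQ h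
  exact ⟨f, hf⟩

theorem emb_close {T : Finset (Finset (Fin n))} {G : SimpleGraph (Fin k)} {S : Finset (Fin k)}
    {f0 : Fin k → Fin n} (hE : Emb T G S f0) (hK : ∀ a b, (lk T a b).card = 0 ∨ k ≤ (lk T a b).card)
    (hT : ∃ a b, (lk T a b).Nonempty)
    (h : ∀ v ∉ S, ∀ x y, G.Adj v x → G.Adj v y → (x ∈ S ∨ x < v) → (y ∈ S ∨ y < v) → x ≠ y → G.Adj x y)
    (h3 : ∀ v ∉ S, ∀ x y w, G.Adj v x → G.Adj v y → G.Adj v w → (x ∈ S ∨ x < v) → (y ∈ S ∨ y < v) →
      (w ∈ S ∨ w < v) → x = y ∨ x = w ∨ y = w) :
    ∃ f, Emb T G univ f := by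
  have hbig : ∀ a b, (lk T a b).Nonempty → k ≤ (lk T a b).card := by
    intro a b hab
    rcases hK a b with h1 | h1
    · rw [Finset.card_eq_zero] at h1
      rw [h1] at hab
      exact (Finset.not_nonempty_empty hab).elim
    · exact h1
  have hnb : ∀ a b, ∀ x ∈ lk T a b, (nbh T x).Nonempty := by
    intro a b x hx
    have h1 := (Finset.mem_inter.1 (lk_sub T a b hx)).1
    exact ⟨a, nbh_comm.1 h1⟩
  have key : ∀ j ≤ k, ∃ f, Emb T G (univ.filter (fun v : Fin k => v ∈ S ∨ (v : ℕ) < j)) f := by
    intro j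
    induction j with
    | zero =>
      intro _
      refine ⟨f0, ?_⟩
      have h1 : (univ.filter (fun v : Fin k => v ∈ S ∨ (v : ℕ) < 0)) = S := by
        ext v
        simp
      rw [h1]
      exact hE
    | succ j ih =>
      intro hj
      obtain ⟨f, hf⟩ := ih (by omega)
      set P := univ.filter (fun v : Fin k => v ∈ S ∨ (v : ℕ) < j) with hP
      have memP : ∀ u : Fin k, u ∈ P ↔ u ∈ S ∨ (u : ℕ) < j := by
        intro u
        rw [hP, Finset.mem_filter]
        exact ⟨fun h => h.2, fun h => ⟨Finset.mem_univ _, h⟩⟩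
      let v : Fin k := ⟨j, hj⟩
      by_cases hvS : v ∈ S
      · refine ⟨f, ?_⟩
        have h1 : (univ.filter (fun w : Fin k => w ∈ S ∨ (w : ℕ) < j + 1)) = P := by
          ext w
          rw [memP, Finset.mem_filter]
          constructor
          · rintro ⟨-, h2 | h2⟩
            · exact Or.inl h2
            · by_cases h3 : (w : ℕ) = j
              · left
                have h4 : w = v := Fin.ext h3
                rw [h4]
                exact hvS
              · right
                omega
          · intro h2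
            refine ⟨Finset.mem_univ _, ?_⟩
            rcases h2 with h2 | h2
            · exact Or.inl h2
            · right
              omega
        rw [h1]
        exact hf
      · have hvP : v ∉ P := by
          rw [memP]
          rintro (h2 | h2)
          · exact hvS h2
          · exact lt_irrefl _ h2
        have h1 : (univ.filter (fun w : Fin k => w ∈ S ∨ (w : ℕ) < j + 1)) = insert v P := by
          ext w
          rw [Finset.mem_insert, memP, Finset.mem_filter]
          constructor
          · rintro ⟨-, h2 | h2⟩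
            · exact Or.inr (Or.inl h2)
            · by_cases h3 : (w : ℕ) = j
              · left
                exact Fin.ext h3
              · right
                right
                omega
          · intro h2
            refine ⟨Finset.mem_univ _, ?_⟩
            rcases h2 with h2 | h2 | h2
            · right
              rw [h2]
              exact Nat.lt_succ_self j
            · exact Or.inl h2
            · right
              omega
        have hlt : ∀ u ∈ P, u ∈ S ∨ u < v := by
          intro u hu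
          rcases (memP u).1 hu with h2 | h2
          · exact Or.inl h2
          · exact Or.inr (Fin.lt_def.2 h2)
        rw [h1]
        have fin : ∀ X : Finset (Fin n), k ≤ X.card → (∀ x ∈ X, (nbh T x).Nonempty) →
            (∀ x ∈ X, ∀ u ∈ P, G.Adj v u → (lk T (f u) x).Nonempty) → ∃ f, Emb T G (insert v P) f := by
          intro X hX1 hX2 hX3
          obtain ⟨x, -, hx⟩ := emb_add hf hvP hX1 hX2 hX3
          exact ⟨_, hx⟩
        by_cases hu : ∃ u ∈ P, G.Adj v u
        · obtain ⟨u, hu, hvu⟩ := hu
          by_cases hw : ∃ w ∈ P, G.Adj v w ∧ u ≠ w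
          · obtain ⟨w, hw, hvw, huw⟩ := hw
            have hadj : G.Adj u w := h v hvS u w hvu hvw (hlt u hu) (hlt w hw) huw
            have hne := hf.2.2 u hu w hw hadj
            refine fin (lk T (f u) (f w)) (hbig _ _ hne) (hnb _ _) ?_
            intro x hx y hy hvy
            rcases h3 v hvS u w y hvu hvw hvy (hlt u hu) (hlt w hw) (hlt y hy) with h4 | h4 | h4
            · exact (huw h4).elim
            · rw [← h4]
              exact ⟨f w, lk_rot hx⟩
            · rw [← h4]
              rw [lk_comm] at hx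
              exact ⟨f u, lk_rot hx⟩
          · obtain ⟨w, hw1⟩ := hf.2.1 u hu
            have hne := mem_nbh.1 hw1
            refine fin (lk T (f u) w) (hbig _ _ hne) (hnb _ _) ?_
            intro x hx y hy hvy
            by_cases h4 : u = y
            · rw [← h4]
              exact ⟨w, lk_rot hx⟩
            · exact (hw ⟨y, hy, hvy, h4⟩).elim
        · obtain ⟨a, b, hab⟩ := hT
          refine fin (lk T a b) (hbig a b hab) (hnb a b) ?_
          intro x _ u hu' hadj
          exact (hu ⟨u, hu', hadj⟩).elim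
  obtain ⟨f, hf⟩ := key k le_rfl
  refine ⟨f, ?_⟩
  have h1 : (univ.filter (fun v : Fin k => v ∈ S ∨ (v : ℕ) < k)) = univ := by
    ext v
    rw [Finset.mem_filter]
    exact ⟨fun h => h.1, fun h => ⟨h, Or.inr v.2⟩⟩
  rw [h1] at hf
  exact hf

end Pool.Agent.FAN
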