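import Mathlib

/-!
# Fans (MP_c7cb83_co), module Ta: the weights on homomorphisms of a rooted tree

`nb` is the neighbourhood function of a finite graph, `par` the parent function of a rooted tree.
`SS nb par N f` is the sum of `f` over all homomorphisms of the tree on `0, .., N` in which every
vertex has at most the degree of its grandparent, with the weight
`deg (φ 0) * ∏ 1 / deg (φ (par i))`.
-/

set_option autoImplicit false

namespace Pool.Agent.FAN

open Finset

variable {V : Type} [Fintype V]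

/-- the cap for the degrees of the children of `j` -/
def cap (nb : V → Finset V) (par : ℕ → ℕ) (φ : ℕ → V) (j : ℕ) : ℕ :=
  if j = 0 then Fintype.card V else (nb (φ (par j))).card

/-- neighbours of degree at most `k` -/
def ch (nb : V → Finset V) (k : ℕ) (u : V) : Finset V := (nb u).filter (fun x => (nb x).card ≤ k)

/-- the weighted sum -/
noncomputable def SS (nb : V → Finset V) (par : ℕ → ℕ) : ℕ → ((ℕ → V) → ℝ) → ℝ
  | 0, f => ∑ u, ((nb u).card : ℝ) * f (fun _ => u)
  | (N + 1), f => SS nb par N (fun φ =>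
      (∑ x ∈ ch nb (cap nb par φ (par (N + 1))) (φ (par (N + 1))), f (Function.update φ (N + 1) x)) /
        ((nb (φ (par (N + 1)))).card : ℝ))

/-- admissible maps -/
def Vd (nb : V → Finset V) (par : ℕ → ℕ) (N : ℕ) (φ : ℕ → V) : Prop :=
  0 < (nb (φ 0)).card ∧ ∀ i, 0 < i → i ≤ N → φ i ∈ ch nb (cap nb par φ (par i)) (φ (par i))

theorem cap_update {nb : V → Finset V} {par : ℕ → ℕ} (hp : ∀ i, 0 < i → par i < i) (φ : ℕ → V)
    {N j : ℕ} (hj : j ≤ N) (x : V) :
    cap nb par (Function.update φ (N + 1) x) j = cap nb par φ j := by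
  unfold cap
  by_cases h : j = 0
  · rw [if_pos h, if_pos h]
  · rw [if_neg h, if_neg h, Function.update_of_ne]
    have := hp j (Nat.pos_of_ne_zero h)
    omega

theorem vd_update {nb : V → Finset V} {par : ℕ → ℕ} (hp : ∀ i, 0 < i → par i < i) {φ : ℕ → V}
    {N : ℕ} (h : Vd nb par N φ) {x : V}
    (hx : x ∈ ch nb (cap nb par φ (par (N + 1))) (φ (par (N + 1)))) :
    Vd nb par (N + 1) (Function.update φ (N + 1) x) := by
  refine ⟨?_, fun i hi hiN => ?_⟩
  · rw [Function.update_of_ne (by omega)]
    exact h.1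
  · have h1 := hp i hi
    rw [cap_update hp φ (by omega), Function.update_of_ne (a := par i) (by omega)]
    rcases Nat.lt_or_ge i (N + 1) with h2 | h2
    · rw [Function.update_of_ne (by omega)]
      exact h.2 i hi (by omega)
    · have h3 : i = N + 1 := by omega
      subst h3
      rw [Function.update_self]
      exact hx

theorem vd_pos {nb : V → Finset V} (hs : ∀ u x, x ∈ nb u → u ∈ nb x) {par : ℕ → ℕ} {φ : ℕ → V}
    {N : ℕ} (h : Vd nb par N φ) {i : ℕ} (hi : i ≤ N) : 0 < (nb (φ i)).card := by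
  rcases Nat.eq_zero_or_pos i with h0 | h0
  · rw [h0]
    exact h.1
  · have h1 := h.2 i h0 hi
    exact Finset.card_pos.2 ⟨_, hs _ _ (Finset.mem_filter.1 h1).1⟩

theorem ss_mono {nb : V → Finset V} {par : ℕ → ℕ} (hp : ∀ i, 0 < i → par i < i) (N : ℕ)
    {f g : (ℕ → V) → ℝ} (h : ∀ φ, Vd nb par N φ → f φ ≤ g φ) : SS nb par N f ≤ SS nb par N g := by
  induction N generalizing f g with
  | zero =>
    unfold SS
    refine Finset.sum_le_sum fun u _ => ?_
    rcases Nat.eq_zero_or_pos (nb u).card with h0 | h0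
    · rw [h0]
      simp
    · exact mul_le_mul_of_nonneg_left (h _ ⟨h0, fun i hi hi0 => by omega⟩) (Nat.cast_nonneg _)
  | succ N ih =>
    unfold SS
    refine ih fun φ hφ => ?_
    refine div_le_div_of_nonneg_right (Finset.sum_le_sum fun x hx => ?_) (Nat.cast_nonneg _)
    exact h _ (vd_update hp hφ hx)

theorem ss_zero (nb : V → Finset V) (par : ℕ → ℕ) (N : ℕ) : SS nb par N (fun _ => 0) = 0 := by
  induction N with
  | zero => simp [SS]
  | succ N ih =>
    unfold SS
    simp only [Finset.sum_const_zero, zero_div]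
    exact ih

theorem ss_add (nb : V → Finset V) (par : ℕ → ℕ) (N : ℕ) (f g : (ℕ → V) → ℝ) :
    SS nb par N (fun φ => f φ + g φ) = SS nb par N f + SS nb par N g := by
  induction N generalizing f g with
  | zero => simp [SS, mul_add, Finset.sum_add_distrib]
  | succ N ih =>
    unfold SS
    rw [← ih]
    simp only [Finset.sum_add_distrib, add_div]

theorem ss_mul (nb : V → Finset V) (par : ℕ → ℕ) (N : ℕ) (c : ℝ) (f : (ℕ → V) → ℝ) :
    SS nb par N (fun φ => c * f φ) = c * SS nb par N f := by
  induction N generalizing f with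
  | zero =>
    unfold SS
    rw [Finset.mul_sum]
    exact Finset.sum_congr rfl fun u _ => by ring
  | succ N ih =>
    unfold SS
    rw [← ih]
    congr 1
    funext φ
    rw [← Finset.mul_sum, mul_div_assoc]

theorem ss_sum (nb : V → Finset V) (par : ℕ → ℕ) (N : ℕ) {ι : Type} (s : Finset ι)
    (f : ι → (ℕ → V) → ℝ) :
    SS nb par N (fun φ => ∑ i ∈ s, f i φ) = ∑ i ∈ s, SS nb par N (f i) := by
  classical
  induction s using Finset.induction_on with
  | empty =>
    simp only [Finset.sum_empty]
    exact ss_zero nb par N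
  | insert a s ha ih =>
    rw [Finset.sum_insert ha, ← ih, ← ss_add]
    congr 1
    funext φ
    rw [Finset.sum_insert ha]

theorem ss_nonneg {nb : V → Finset V} {par : ℕ → ℕ} (hp : ∀ i, 0 < i → par i < i) (N : ℕ)
    {f : (ℕ → V) → ℝ} (h : ∀ φ, 0 ≤ f φ) : 0 ≤ SS nb par N f := by
  rw [← ss_zero nb par N]
  exact ss_mono hp N fun φ _ => h φ

/-- the last coordinate is summed out -/
theorem ss_step {nb : V → Finset V} {par : ℕ → ℕ} (hp : ∀ i, 0 < i → par i < i) (N : ℕ)
    {f : (ℕ → V) → ℝ} (h : ∀ φ, 0 ≤ f φ) (hd : ∀ φ x, f (Function.update φ (N + 1) x) = f φ) :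
    SS nb par (N + 1) f ≤ SS nb par N f := by
  rw [SS]
  refine ss_mono hp N fun φ _ => ?_
  have h1 : ∑ x ∈ ch nb (cap nb par φ (par (N + 1))) (φ (par (N + 1))),
      f (Function.update φ (N + 1) x) =
      ((ch nb (cap nb par φ (par (N + 1))) (φ (par (N + 1)))).card : ℝ) * f φ := by
    rw [Finset.sum_congr rfl fun x _ => hd φ x, Finset.sum_const, nsmul_eq_mul]
  rw [h1]
  have h2 : ((ch nb (cap nb par φ (par (N + 1))) (φ (par (N + 1)))).card : ℝ) ≤
      ((nb (φ (par (N + 1)))).card : ℝ) := by
    exact_mod_cast Finset.card_filter_le _ _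
  refine div_le_of_le_mul₀ (Nat.cast_nonneg _) (h φ) ?_
  rw [mul_comm]
  exact mul_le_mul_of_nonneg_left h2 (h φ)

/-- `f` depends on the coordinates `≤ q` -/
theorem ss_down {nb : V → Finset V} {par : ℕ → ℕ} (hp : ∀ i, 0 < i → par i < i) {q N : ℕ}
    (hq : q ≤ N) {f : (ℕ → V) → ℝ} (h : ∀ φ, 0 ≤ f φ)
    (hd : ∀ φ ψ : ℕ → V, (∀ i ≤ q, φ i = ψ i) → f φ = f ψ) :
    SS nb par N f ≤ SS nb par q f := by
  induction N with
  | zero =>
    have : q = 0 := by omega
    rw [this]
  | succ N ih =>
    rcases Nat.lt_or_ge q (N + 1) with h1 | h1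
    · refine (ss_step hp N h fun φ x => hd _ _ fun i hi => ?_).trans (ih (by omega))
      rw [Function.update_of_ne (by omega)]
    · have : q = N + 1 := by omega
      rw [this]

/-- the marginals are at most the degrees -/
theorem ss_marg {nb : V → Finset V} (hs : ∀ u x, x ∈ nb u → u ∈ nb x) {par : ℕ → ℕ}
    (hp : ∀ i, 0 < i → par i < i) {r N : ℕ} (hr : r ≤ N) {h : V → ℝ} (h0 : ∀ u, 0 ≤ h u) :
    SS nb par N (fun φ => h (φ r)) ≤ ∑ u, ((nb u).card : ℝ) * h u := by
  induction N generalizing r h with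
  | zero =>
    have : r = 0 := by omega
    subst this
    unfold SS
    exact le_rfl
  | succ N ih =>
    rcases Nat.lt_or_ge r (N + 1) with h1 | h1
    · refine (ss_step hp N (fun φ => h0 _) fun φ x => ?_).trans (ih (by omega) h0)
      rw [Function.update_of_ne (by omega)]
    · have h2 : r = N + 1 := by omega
      subst h2
      rw [SS]
      have h3 : par (N + 1) ≤ N := by
        have := hp (N + 1) (by omega)
        omega
      have h4 : SS nb par N (fun φ => (∑ x ∈ ch nb (cap nb par φ (par (N + 1))) (φ (par (N + 1))),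
          h (Function.update φ (N + 1) x (N + 1))) / ((nb (φ (par (N + 1)))).card : ℝ)) ≤
          SS nb par N (fun φ => (fun u => (∑ x ∈ nb u, h x) / ((nb u).card : ℝ)) (φ (par (N + 1)))) := by
        refine ss_mono hp N fun φ _ => ?_
        refine div_le_div_of_nonneg_right ?_ (Nat.cast_nonneg _)
        simp only [Function.update_self]
        exact Finset.sum_le_sum_of_subset_of_nonneg (Finset.filter_subset _ _) fun x _ _ => h0 x
      refine h4.trans ((ih (h := fun u => (∑ x ∈ nb u, h x) / ((nb u).card : ℝ)) h3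
        fun u => div_nonneg (Finset.sum_nonneg fun x _ => h0 x) (Nat.cast_nonneg _)).trans ?_)
      have h5 : ∀ u, ((nb u).card : ℝ) * ((∑ x ∈ nb u, h x) / ((nb u).card : ℝ)) = ∑ x ∈ nb u, h x := by
        intro u
        rcases Nat.eq_zero_or_pos (nb u).card with h6 | h6
        · rw [Finset.card_eq_zero.1 h6]
          simp
        · have h7 : ((nb u).card : ℝ) ≠ 0 := by
            exact_mod_cast h6.ne'
          field_simp
      rw [Finset.sum_congr rfl fun u _ => h5 u]
      have h8 : ∑ u, ∑ x ∈ nb u, h x = ∑ x, ∑ u ∈ nb x, h x := by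
        refine Finset.sum_comm' ?_
        intro u x
        constructor
        · rintro ⟨_, h9⟩
          exact ⟨hs _ _ h9, Finset.mem_univ _⟩
        · rintro ⟨h9, _⟩
          exact ⟨Finset.mem_univ _, hs _ _ h9⟩
      rw [h8]
      refine le_of_eq (Finset.sum_congr rfl fun u _ => ?_)
      rw [Finset.sum_const, nsmul_eq_mul]

end Pool.Agent.FAN
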