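import Pool.Agent.FAN.Ta

/-!
# Fans (MP_c7cb83_co), module Tb: two vertices of different parity have small joint weight

Paper proof: /team-store/fan_theorem.md, step 3 (b).

PLAN.  Private helpers (prefix `tb_`), all by induction on `s`:
* `0 ≤ FF`, `0 ≤ QQ`, `∑ u, QQ nb a s u ≤ 1` (`Finset.sum_comm'` with the symmetry `hs`, `∑ u ∈ nb x, QQ x / deg x ≤ QQ x`).
* `deg u * FF nb a s k u ≤ deg a * QQ nb a s u` (all degrees as reals; `deg u = 0`: the left side is `0`).
* two steps do not increase the degree: `FF nb a (2 * s) k u ≠ 0 → deg a ≤ deg u` (unfold two steps: some `x ∈ ch nb k u`, `y ∈ ch nb (deg u) x` with `FF nb a (2 * s) (deg x) y ≠ 0`, so `deg a ≤ deg y ≤ deg u`).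
  So `FF nb a (2 * s) k u ≤ QQ nb a (2 * s) u` (`deg u = 0`: for `s = 0` equality, otherwise `FF = 0`; `deg u > 0`: divide).
* `deg u * FF nb b (2 * t + 1) k u = ∑ x ∈ ch nb k u, FF nb b (2 * t) (deg u) x ≤ ∑ x, QQ nb b (2 * t) x ≤ 1`.
* main claim, by induction on `N`: for all `p q ≤ N` and `s t` with `(col p ≠ col q ↔ Even (s + t))`:
  `SS nb par N (fun φ => FF nb a s (cap nb par φ p) (φ p) * FF nb b t (cap nb par φ q) (φ q)) ≤ 1`.
  - `p = q = N` (for `N = 0` this is the only case): `s + t` is odd, one of them is even, say `s`: the product is `≤ QQ nb a s u * FF nb b t k u`, and `≤ h u` with `h u := QQ nb a s u / deg u` (`deg u > 0`, `vd_pos`), so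
    `ss_mono`, `ss_marg` and `deg u * h u ≤ QQ nb a s u`, `∑ QQ ≤ 1`.
  - `p, q ≤ N` inside `N + 1`: `ss_step` (the caps do not change: `cap_update`).
  - `q = N + 1`, `p ≤ N`: unfold `SS` once; the inner sum over `x` is `FF nb a s (cap p) (φ p) * FF nb b (t + 1) (cap (par (N + 1))) (φ (par (N + 1)))`, because
    `cap nb par (update φ (N + 1) x) (N + 1) = deg (φ (par (N + 1)))` and `FF nb b (t + 1) k u = (∑ x ∈ ch nb k u, FF nb b t (deg u) x) / deg u`; use the induction hypothesis with `par (N + 1)`, `t + 1`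
    (`col (par (N + 1)) ≠ col (N + 1)`).  The case `p = N + 1`, `q ≤ N` is symmetric.
* `ss_pair`: `s = t = 0`.  `ss_bad`: the indicator of `(φ p, φ q) ∈ B` is the sum over `(a, b) ∈ B` of the products (`ss_sum`).
-/

set_option autoImplicit false

namespace Pool.Agent.FAN

open Finset

variable {V : Type} [Fintype V] [DecidableEq V]

/-- probability that a walk of `s` steps with the degree caps ends in `a` -/
noncomputable def FF (nb : V → Finset V) (a : V) : ℕ → ℕ → V → ℝ
  | 0, _, u => if u = a then 1 else 0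
  | (s + 1), k, u => (∑ x ∈ ch nb k u, FF nb a s (nb u).card x) / ((nb u).card : ℝ)

/-- distribution of the walk of `s` steps from `a` -/
noncomputable def QQ (nb : V → Finset V) (a : V) : ℕ → V → ℝ
  | 0, u => if u = a then 1 else 0
  | (s + 1), u => ∑ x ∈ nb u, QQ nb a s x / ((nb x).card : ℝ)

omit [Fintype V] in
private theorem tb_ff_nonneg (nb : V → Finset V) (a : V) (s k : ℕ) (u : V) :
    0 ≤ FF nb a s k u := by
  induction s generalizing k u with
  | zero =>
    unfold FF
    split_ifs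
    · exact zero_le_one
    · exact le_rfl
  | succ s ih =>
    unfold FF
    exact div_nonneg (Finset.sum_nonneg fun x _ => ih _ x) (Nat.cast_nonneg _)

omit [Fintype V] in
private theorem tb_qq_nonneg (nb : V → Finset V) (a : V) (s : ℕ) (u : V) : 0 ≤ QQ nb a s u := by
  induction s generalizing u with
  | zero =>
    unfold QQ
    split_ifs
    · exact zero_le_one
    · exact le_rfl
  | succ s ih =>
    unfold QQ
    exact Finset.sum_nonneg fun x _ => div_nonneg (ih x) (Nat.cast_nonneg _)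

private theorem tb_mul_div (c : ℕ) {r : ℝ} (hr : 0 ≤ r) : (c : ℝ) * (r / (c : ℝ)) ≤ r := by
  rcases Nat.eq_zero_or_pos c with h | h
  · rw [h]
    simpa using hr
  · have h1 : (c : ℝ) ≠ 0 := by exact_mod_cast h.ne'
    rw [mul_div_cancel₀ r h1]

private theorem tb_qq_sum {nb : V → Finset V} (hs : ∀ u x, x ∈ nb u → u ∈ nb x) (a : V) (s : ℕ) :
    ∑ u, QQ nb a s u ≤ 1 := by
  induction s with
  | zero =>
    unfold QQ
    rw [Finset.sum_ite_eq' Finset.univ a (fun _ => (1 : ℝ)), if_pos (Finset.mem_univ _)]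
  | succ s ih =>
    refine le_trans ?_ ih
    have h7 : ∀ u, QQ nb a (s + 1) u = ∑ x ∈ nb u, QQ nb a s x / ((nb x).card : ℝ) := by
      intro u
      rw [QQ]
    rw [Finset.sum_congr rfl fun u _ => h7 u]
    have h8 : ∑ u, ∑ x ∈ nb u, QQ nb a s x / ((nb x).card : ℝ) =
        ∑ x, ∑ _u ∈ nb x, QQ nb a s x / ((nb x).card : ℝ) := by
      refine Finset.sum_comm' ?_
      intro u x
      constructor
      · rintro ⟨_, h9⟩
        exact ⟨hs _ _ h9, Finset.mem_univ _⟩
      · rintro ⟨h9, _⟩
        exact ⟨Finset.mem_univ _, hs _ _ h9⟩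
    rw [h8]
    refine Finset.sum_le_sum fun x _ => ?_
    rw [Finset.sum_const, nsmul_eq_mul]
    exact tb_mul_div _ (tb_qq_nonneg nb a s x)

omit [Fintype V] in
private theorem tb_le {nb : V → Finset V} (hs : ∀ u x, x ∈ nb u → u ∈ nb x) (a : V) (s k : ℕ)
    (u : V) : ((nb u).card : ℝ) * FF nb a s k u ≤ ((nb a).card : ℝ) * QQ nb a s u := by
  induction s generalizing k u with
  | zero =>
    unfold FF QQ
    split_ifs with h
    · rw [h]
    · simp
  | succ s ih =>
    rw [FF, QQ]
    refine (tb_mul_div _ (Finset.sum_nonneg fun x _ => tb_ff_nonneg nb a s _ x)).trans ?_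
    rw [Finset.mul_sum]
    refine (Finset.sum_le_sum_of_subset_of_nonneg (Finset.filter_subset _ (nb u))
      fun x _ _ => tb_ff_nonneg nb a s _ x).trans ?_
    refine Finset.sum_le_sum fun x hx => ?_
    have h1 : (0 : ℝ) < ((nb x).card : ℝ) := by
      exact_mod_cast Finset.card_pos.2 ⟨u, hs _ _ hx⟩
    rw [← mul_div_assoc, le_div_iff₀ h1, mul_comm]
    exact ih _ x

omit [Fintype V] in
private theorem tb_deg {nb : V → Finset V} (a : V) (s k : ℕ) (u : V)
    (h : FF nb a (2 * s) k u ≠ 0) : (nb a).card ≤ (nb u).card := by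
  induction s generalizing k u with
  | zero =>
    have h1 : u = a := by
      by_contra h1
      refine h ?_
      rw [Nat.mul_zero, FF, if_neg h1]
    rw [h1]
  | succ s ih =>
    have h0 : 2 * (s + 1) = 2 * s + 1 + 1 := by ring
    rw [h0, FF] at h
    have h1 : ∑ x ∈ ch nb k u, FF nb a (2 * s + 1) (nb u).card x ≠ 0 := by
      intro h1
      rw [h1, zero_div] at h
      exact h rfl
    obtain ⟨x, _, h2⟩ := Finset.exists_ne_zero_of_sum_ne_zero h1
    rw [FF] at h2
    have h3 : ∑ y ∈ ch nb (nb u).card x, FF nb a (2 * s) (nb x).card y ≠ 0 := by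
      intro h3
      rw [h3, zero_div] at h2
      exact h2 rfl
    obtain ⟨y, hy, h4⟩ := Finset.exists_ne_zero_of_sum_ne_zero h3
    exact (ih _ y h4).trans (Finset.mem_filter.1 hy).2

private theorem tb_even {nb : V → Finset V} (hs : ∀ u x, x ∈ nb u → u ∈ nb x) (a : V) (s k : ℕ)
    (u : V) : FF nb a (2 * s) k u ≤ QQ nb a (2 * s) u := by
  by_cases h : FF nb a (2 * s) k u = 0
  · rw [h]
    exact tb_qq_nonneg nb a _ u
  · rcases Nat.eq_zero_or_pos (nb u).card with h0 | h0
    · cases s with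
      | zero =>
        rw [Nat.mul_zero, FF, QQ]
      | succ s =>
        exfalso
        have h1 : 2 * (s + 1) = 2 * s + 1 + 1 := by ring
        rw [h1, FF, h0] at h
        simp at h
    · have h1 : (0 : ℝ) < ((nb u).card : ℝ) := by exact_mod_cast h0
      have h2 : ((nb a).card : ℝ) ≤ ((nb u).card : ℝ) := by exact_mod_cast tb_deg a s k u h
      have h3 := tb_le hs a (2 * s) k u
      have h4 := mul_le_mul_of_nonneg_right h2 (tb_qq_nonneg nb a (2 * s) u)
      exact le_of_mul_le_mul_left (h3.trans h4) h1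

private theorem tb_odd {nb : V → Finset V} (hs : ∀ u x, x ∈ nb u → u ∈ nb x) (a : V) (s k : ℕ)
    (u : V) : ((nb u).card : ℝ) * FF nb a (2 * s + 1) k u ≤ 1 := by
  rw [FF]
  refine (tb_mul_div _ (Finset.sum_nonneg fun x _ => tb_ff_nonneg nb a _ _ x)).trans ?_
  refine (Finset.sum_le_sum fun x _ => tb_even hs a s _ x).trans ?_
  refine le_trans ?_ (tb_qq_sum hs a (2 * s))
  exact Finset.sum_le_sum_of_subset_of_nonneg (Finset.subset_univ _)
    fun x _ _ => tb_qq_nonneg nb a _ x

private theorem tb_prod {nb : V → Finset V} (hs : ∀ u x, x ∈ nb u → u ∈ nb x) (a b : V)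
    (s t k l : ℕ) (u : V) (hu : 0 < (nb u).card) :
    FF nb a (2 * s) k u * FF nb b (2 * t + 1) l u ≤ QQ nb a (2 * s) u / ((nb u).card : ℝ) := by
  have h1 : (0 : ℝ) < ((nb u).card : ℝ) := by exact_mod_cast hu
  have h2 : FF nb b (2 * t + 1) l u ≤ 1 / ((nb u).card : ℝ) := by
    rw [le_div_iff₀ h1, mul_comm]
    exact tb_odd hs b t l u
  rw [div_eq_mul_one_div]
  exact mul_le_mul (tb_even hs a s k u) h2 (tb_ff_nonneg nb b _ _ u) (tb_qq_nonneg nb a _ u)

private theorem tb_same_aux {nb : V → Finset V} (hs : ∀ u x, x ∈ nb u → u ∈ nb x) {par : ℕ → ℕ}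
    (hp : ∀ i, 0 < i → par i < i) {N p : ℕ} (hpN : p ≤ N) (a b : V) (s t : ℕ) :
    SS nb par N (fun φ => FF nb a (2 * s) (cap nb par φ p) (φ p) *
      FF nb b (2 * t + 1) (cap nb par φ p) (φ p)) ≤ 1 := by
  have h1 : SS nb par N (fun φ => FF nb a (2 * s) (cap nb par φ p) (φ p) *
      FF nb b (2 * t + 1) (cap nb par φ p) (φ p)) ≤
      SS nb par N (fun φ => (fun u => QQ nb a (2 * s) u / ((nb u).card : ℝ)) (φ p)) :=
    ss_mono hp N fun φ hφ => tb_prod hs a b s t _ _ _ (vd_pos hs hφ hpN)
  refine h1.trans ((ss_marg hs hp hpN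
    (h := fun u => QQ nb a (2 * s) u / ((nb u).card : ℝ))
    fun u => div_nonneg (tb_qq_nonneg nb a _ u) (Nat.cast_nonneg _)).trans ?_)
  exact (Finset.sum_le_sum fun u _ => tb_mul_div _ (tb_qq_nonneg nb a _ u)).trans
    (tb_qq_sum hs a (2 * s))

private theorem tb_same {nb : V → Finset V} (hs : ∀ u x, x ∈ nb u → u ∈ nb x) {par : ℕ → ℕ}
    (hp : ∀ i, 0 < i → par i < i) {N p : ℕ} (hpN : p ≤ N) (a b : V) {s t : ℕ}
    (h : ¬ Even (s + t)) :
    SS nb par N (fun φ => FF nb a s (cap nb par φ p) (φ p) *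
      FF nb b t (cap nb par φ p) (φ p)) ≤ 1 := by
  rcases Nat.even_or_odd s with h1 | h1
  · have h2 : Odd t := by
      rw [← Nat.not_even_iff_odd]
      exact fun h2 => h (h1.add h2)
    obtain ⟨s', hs'⟩ := h1
    obtain ⟨t', ht'⟩ := h2
    have e1 : s = 2 * s' := by omega
    rw [e1, ht']
    exact tb_same_aux hs hp hpN a b s' t'
  · have h2 : Even t := by
      rw [← Nat.not_odd_iff_even]
      exact fun h2 => h (h1.add_odd h2)
    obtain ⟨s', hs'⟩ := h1
    obtain ⟨t', ht'⟩ := h2
    have e1 : t = 2 * t' := by omega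
    rw [e1, hs']
    have e2 : (fun φ : ℕ → V => FF nb a (2 * s' + 1) (cap nb par φ p) (φ p) *
        FF nb b (2 * t') (cap nb par φ p) (φ p)) =
        (fun φ => FF nb b (2 * t') (cap nb par φ p) (φ p) *
          FF nb a (2 * s' + 1) (cap nb par φ p) (φ p)) := by
      funext φ
      exact mul_comm _ _
    rw [e2]
    exact tb_same_aux hs hp hpN b a t' s'

private theorem tb_last {nb : V → Finset V} {par : ℕ → ℕ} (hp : ∀ i, 0 < i → par i < i) (N : ℕ)
    {g : (ℕ → V) → ℝ} (hg : ∀ φ x, g (Function.update φ (N + 1) x) = g φ) (b : V) (t : ℕ) :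
    SS nb par (N + 1) (fun φ => g φ * FF nb b t (cap nb par φ (N + 1)) (φ (N + 1))) =
      SS nb par N (fun φ => g φ *
        FF nb b (t + 1) (cap nb par φ (par (N + 1))) (φ (par (N + 1)))) := by
  rw [SS]
  congr 1
  funext φ
  rw [FF, ← mul_div_assoc, Finset.mul_sum]
  congr 1
  refine Finset.sum_congr rfl fun x _ => ?_
  have h1 : cap nb par (Function.update φ (N + 1) x) (N + 1) = (nb (φ (par (N + 1)))).card := by
    unfold cap
    have h2 := hp (N + 1) (by omega)
    rw [if_neg (by omega), Function.update_of_ne (by omega)]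
  rw [hg, h1, Function.update_self]

private theorem tb_main {nb : V → Finset V} (hs : ∀ u x, x ∈ nb u → u ∈ nb x) {par : ℕ → ℕ}
    (hp : ∀ i, 0 < i → par i < i) {col : ℕ → Bool} (hc : ∀ i, 0 < i → col (par i) ≠ col i)
    (N : ℕ) : ∀ (a b : V) (p q s t : ℕ), p ≤ N → q ≤ N → (col p ≠ col q ↔ Even (s + t)) →
    SS nb par N (fun φ => FF nb a s (cap nb par φ p) (φ p) *
      FF nb b t (cap nb par φ q) (φ q)) ≤ 1 := by
  induction N with
  | zero =>
    intro a b p q s t hpN hqN h
    have h1 : p = q := by omega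
    subst h1
    exact tb_same hs hp hpN a b fun h2 => (h.2 h2) rfl
  | succ N ih =>
    intro a b p q s t hpN hqN h
    have hpar : par (N + 1) ≤ N := by
      have := hp (N + 1) (by omega)
      omega
    have hcp := hc (N + 1) (by omega)
    rcases Nat.lt_or_ge p (N + 1) with h1 | h1
    · rcases Nat.lt_or_ge q (N + 1) with h2 | h2
      · refine (ss_step hp N (fun φ => mul_nonneg (tb_ff_nonneg nb a _ _ _)
          (tb_ff_nonneg nb b _ _ _)) fun φ x => ?_).trans (ih a b p q s t (by omega) (by omega) h)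
        rw [cap_update hp φ (by omega), cap_update hp φ (by omega),
          Function.update_of_ne (by omega), Function.update_of_ne (by omega)]
      · have h3 : q = N + 1 := by omega
        subst h3
        rw [tb_last hp N (g := fun φ => FF nb a s (cap nb par φ p) (φ p)) (fun φ x => by
          rw [cap_update hp φ (by omega), Function.update_of_ne (by omega)]) b t]
        refine ih a b p (par (N + 1)) s (t + 1) (by omega) hpar ?_
        have h4 : Even (s + (t + 1)) ↔ ¬ Even (s + t) := by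
          rw [← add_assoc, Nat.even_add_one]
        rw [h4, ← h]
        revert hcp
        cases col p <;> cases col (par (N + 1)) <;> cases col (N + 1) <;> simp
    · have h3 : p = N + 1 := by omega
      subst h3
      rcases Nat.lt_or_ge q (N + 1) with h2 | h2
      · have e2 : (fun φ : ℕ → V => FF nb a s (cap nb par φ (N + 1)) (φ (N + 1)) *
            FF nb b t (cap nb par φ q) (φ q)) =
            (fun φ => FF nb b t (cap nb par φ q) (φ q) *
              FF nb a s (cap nb par φ (N + 1)) (φ (N + 1))) := by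
          funext φ
          exact mul_comm _ _
        rw [e2, tb_last hp N (g := fun φ => FF nb b t (cap nb par φ q) (φ q)) (fun φ x => by
          rw [cap_update hp φ (by omega), Function.update_of_ne (by omega)]) a s]
        refine ih b a q (par (N + 1)) t (s + 1) (by omega) hpar ?_
        have h4 : Even (t + (s + 1)) ↔ ¬ Even (s + t) := by
          rw [← add_assoc, Nat.even_add_one, add_comm t s]
        rw [h4, ← h]
        revert hcp
        cases col q <;> cases col (par (N + 1)) <;> cases col (N + 1) <;> simp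
      · have h4 : q = N + 1 := by omega
        subst h4
        exact tb_same hs hp hpN a b fun h2 => (h.2 h2) rfl

theorem ss_pair {nb : V → Finset V} (hs : ∀ u x, x ∈ nb u → u ∈ nb x) {par : ℕ → ℕ}
    (hp : ∀ i, 0 < i → par i < i) {col : ℕ → Bool} (hc : ∀ i, 0 < i → col (par i) ≠ col i)
    {N p q : ℕ} (hpN : p ≤ N) (hqN : q ≤ N) (h : col p ≠ col q) (a b : V) :
    SS nb par N (fun φ => (if φ p = a then (1 : ℝ) else 0) * (if φ q = b then (1 : ℝ) else 0)) ≤ 1 := by
  have h1 := tb_main hs hp hc N a b p q 0 0 hpN hqN (by simpa using h)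
  have e1 : (fun φ : ℕ → V => FF nb a 0 (cap nb par φ p) (φ p) *
      FF nb b 0 (cap nb par φ q) (φ q)) =
      (fun φ => (if φ p = a then (1 : ℝ) else 0) * (if φ q = b then (1 : ℝ) else 0)) := by
    funext φ
    rw [FF, FF]
  rw [e1] at h1
  exact h1

theorem ss_bad {nb : V → Finset V} (hs : ∀ u x, x ∈ nb u → u ∈ nb x) {par : ℕ → ℕ}
    (hp : ∀ i, 0 < i → par i < i) {col : ℕ → Bool} (hc : ∀ i, 0 < i → col (par i) ≠ col i)
    {N p q : ℕ} (hpN : p ≤ N) (hqN : q ≤ N) (h : col p ≠ col q) (B : Finset (V × V)) :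
    SS nb par N (fun φ => if (φ p, φ q) ∈ B then (1 : ℝ) else 0) ≤ B.card := by
  have e1 : (fun φ : ℕ → V => if (φ p, φ q) ∈ B then (1 : ℝ) else 0) =
      (fun φ => ∑ e ∈ B, (if φ p = e.1 then (1 : ℝ) else 0) * (if φ q = e.2 then (1 : ℝ) else 0)) := by
    funext φ
    have h1 : ∀ e ∈ B, (if φ p = e.1 then (1 : ℝ) else 0) * (if φ q = e.2 then (1 : ℝ) else 0) =
        if (φ p, φ q) = e then (1 : ℝ) else 0 := by
      intro e _
      by_cases h2 : φ p = e.1
      · by_cases h3 : φ q = e.2
        · rw [if_pos h2, if_pos h3, if_pos (Prod.ext h2 h3), one_mul]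
        · rw [if_pos h2, if_neg h3, if_neg (fun h4 => h3 (congrArg Prod.snd h4)), one_mul]
      · rw [if_neg h2, if_neg (fun h4 => h2 (congrArg Prod.fst h4)), zero_mul]
    rw [Finset.sum_congr rfl h1, Finset.sum_ite_eq B (φ p, φ q) (fun _ => (1 : ℝ))]
  rw [e1, ss_sum nb par N B]
  refine (Finset.sum_le_sum fun e _ => ss_pair hs hp hc hpN hqN h e.1 e.2).trans ?_
  rw [Finset.sum_const, nsmul_eq_mul, mul_one]

end Pool.Agent.FAN
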