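import Pool.Agent.FAN.Ta

/-!
# Fans (MP_c7cb83_co), module Tc: collisions have small weight

PLAN.  `ss_down` to `q` (the indicator depends on the coordinates `p < q` and `q`), `q = q' + 1`, unfold `SS` once: for an admissible `φ` (use `ss_mono`) at most one `x` in the filter has `φ p = x`
(`Function.update_of_ne`, `Function.update_self`), so the quotient is `≤ 1 / deg (φ (par q)) ≤ 1 / K` (`vd_pos`, `hd`).  Then `SS nb par q' (fun _ => 1 / K) = (1 / K) * SS nb par q' (fun _ => 1)` (`ss_mul`)
and `SS nb par q' (fun _ => 1) ≤ ∑ deg` (`ss_marg` with `h = 1`, or `ss_down` to `0`).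
-/

set_option autoImplicit false

namespace Pool.Agent.FAN

open Finset

variable {V : Type} [Fintype V] [DecidableEq V]

theorem ss_coll {nb : V → Finset V} (hs : ∀ u x, x ∈ nb u → u ∈ nb x) {par : ℕ → ℕ}
    (hp : ∀ i, 0 < i → par i < i) {K : ℕ} (hK : 0 < K)
    (hd : ∀ u, (nb u).card = 0 ∨ K ≤ (nb u).card) {N p q : ℕ} (hpq : p < q) (hq : q ≤ N) :
    SS nb par N (fun φ => if φ p = φ q then (1 : ℝ) else 0) ≤ (∑ u, ((nb u).card : ℝ)) / K := by
  have h0 : ∀ φ : ℕ → V, (0 : ℝ) ≤ (if φ p = φ q then (1 : ℝ) else 0) := by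
    intro φ
    split_ifs <;> norm_num
  refine (ss_down hp hq h0 fun φ ψ h => ?_).trans ?_
  · rw [h p hpq.le, h q le_rfl]
  obtain ⟨q', rfl⟩ : ∃ q', q = q' + 1 := ⟨q - 1, by omega⟩
  have hK' : (0 : ℝ) < K := by exact_mod_cast hK
  rw [SS]
  refine (ss_mono (g := fun _ => (1 / (K : ℝ)) * 1) hp q' fun φ hφ => ?_).trans ?_
  · have h3 : par (q' + 1) ≤ q' := by
      have := hp (q' + 1) (by omega)
      omega
    have h4 := vd_pos hs hφ h3
    have h5 : K ≤ (nb (φ (par (q' + 1)))).card := by
      rcases hd (φ (par (q' + 1))) with h | h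
      · omega
      · exact h
    have h6 : (K : ℝ) ≤ ((nb (φ (par (q' + 1)))).card : ℝ) := by exact_mod_cast h5
    have h7 : ∑ x ∈ ch nb (cap nb par φ (par (q' + 1))) (φ (par (q' + 1))),
        (if Function.update φ (q' + 1) x p = Function.update φ (q' + 1) x (q' + 1) then (1 : ℝ)
          else 0) ≤ 1 := by
      have h8 : ∀ x, (if Function.update φ (q' + 1) x p = Function.update φ (q' + 1) x (q' + 1)
          then (1 : ℝ) else 0) = if φ p = x then 1 else 0 := by
        intro x
        rw [Function.update_of_ne (by omega), Function.update_self]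
      simp only [h8]
      rw [Finset.sum_ite_eq]
      split_ifs <;> norm_num
    rw [mul_one]
    calc _ ≤ 1 / ((nb (φ (par (q' + 1)))).card : ℝ) :=
          div_le_div_of_nonneg_right h7 (Nat.cast_nonneg _)
      _ ≤ 1 / K := one_div_le_one_div_of_le hK' h6
  · rw [ss_mul]
    have h8 : SS nb par q' (fun _ => 1) ≤ ∑ u, ((nb u).card : ℝ) := by
      have := ss_marg hs hp (r := 0) (N := q') (Nat.zero_le _) (h := fun _ => (1 : ℝ))
        (fun _ => zero_le_one)
      simpa using this
    rw [one_div, div_eq_inv_mul (∑ u, ((nb u).card : ℝ))]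
    exact mul_le_mul_of_nonneg_left h8 (inv_nonneg.2 hK'.le)

end Pool.Agent.FAN
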