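import Pool.Agent.FAN.Ta

/-!
# Fans (MP_c7cb83_co), module Td: lower bound for the total weight

Paper proof: /team-store/fan_theorem.md, step 3 (d), `θ = 1 / (2 N + 2)`.
-/

set_option autoImplicit false

namespace Pool.Agent.FAN

open Finset

variable {V : Type} [Fintype V] [DecidableEq V]

/-- `td_G nb t d u` is the set of the `x` with `(u, x)` in the set `G_d` of the paper proof -/
private noncomputable def td_G (nb : V → Finset V) (t : ℝ) : ℕ → V → Finset V
  | 0, u => nb u
  | (d + 1), g => (nb g).filter (fun u => t * ((nb u).card : ℝ) ≤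
      (((td_G nb t d u).filter (fun x => (nb x).card ≤ (nb g).card)).card : ℝ))

private theorem td_G_sub (nb : V → Finset V) (t : ℝ) (d : ℕ) (u : V) : td_G nb t d u ⊆ nb u := by
  cases d with
  | zero => exact Finset.Subset.refl _
  | succ d => exact Finset.filter_subset _ _

private theorem td_G_succ (nb : V → Finset V) (t : ℝ) (d : ℕ) (u : V) :
    td_G nb t (d + 1) u ⊆ td_G nb t d u := by
  induction d generalizing u with
  | zero => exact Finset.filter_subset _ _
  | succ d ih =>
    intro x hx
    have h1 : x ∈ (nb u).filter (fun v => t * ((nb v).card : ℝ) ≤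
      (((td_G nb t (d + 1) v).filter (fun y => (nb y).card ≤ (nb u).card)).card : ℝ)) := hx
    rw [Finset.mem_filter] at h1
    show x ∈ (nb u).filter (fun v => t * ((nb v).card : ℝ) ≤
      (((td_G nb t d v).filter (fun y => (nb y).card ≤ (nb u).card)).card : ℝ))
    rw [Finset.mem_filter]
    refine ⟨h1.1, h1.2.trans ?_⟩
    exact_mod_cast Finset.card_le_card (Finset.filter_subset_filter _ (ih x))

private theorem td_G_anti (nb : V → Finset V) (t : ℝ) {d e : ℕ} (h : d ≤ e) (u : V) :
    td_G nb t e u ⊆ td_G nb t d u := by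
  induction e, h using Nat.le_induction with
  | base => exact Finset.Subset.refl _
  | succ e _ ih => exact (td_G_succ nb t e u).trans ih

private theorem td_swap {nb : V → Finset V} (hs : ∀ u x, x ∈ nb u → u ∈ nb x) (P : V → V → Prop)
    [∀ u x, Decidable (P u x)] :
    ∑ g, (((nb g).filter (fun u => P g u)).card : ℝ) =
      ∑ u, (((nb u).filter (fun g => P g u)).card : ℝ) := by
  simp only [Finset.card_filter, Nat.cast_sum]
  refine Finset.sum_comm' ?_
  intro x y
  constructor
  · rintro ⟨_, h⟩
    exact ⟨hs _ _ h, Finset.mem_univ _⟩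
  · rintro ⟨h, _⟩
    exact ⟨Finset.mem_univ _, hs _ _ h⟩

private theorem td_loc {nb : V → Finset V} (hs : ∀ u x, x ∈ nb u → u ∈ nb x) {t : ℝ} (ht : 0 ≤ t)
    (d : ℕ) (u : V) :
    (((nb u).filter (fun g => u ∉ td_G nb t (d + 1) g)).card : ℝ) ≤
      t * ((nb u).card : ℝ) + (((nb u).filter (fun g => g ∉ td_G nb t d u)).card : ℝ) := by
  have h1 : (((nb u).filter (fun g => u ∉ td_G nb t (d + 1) g)).filter
      (fun g => g ∈ td_G nb t d u)).card +
      (((nb u).filter (fun g => u ∉ td_G nb t (d + 1) g)).filter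
      (fun g => ¬ g ∈ td_G nb t d u)).card =
      ((nb u).filter (fun g => u ∉ td_G nb t (d + 1) g)).card :=
    Finset.card_filter_add_card_filter_not _
  have h2 : (((nb u).filter (fun g => u ∉ td_G nb t (d + 1) g)).filter
      (fun g => ¬ g ∈ td_G nb t d u)).card ≤ ((nb u).filter (fun g => g ∉ td_G nb t d u)).card :=
    Finset.card_le_card (Finset.filter_subset_filter _ (Finset.filter_subset _ _))
  have h3 : ((((nb u).filter (fun g => u ∉ td_G nb t (d + 1) g)).filter
      (fun g => g ∈ td_G nb t d u)).card : ℝ) ≤ t * ((nb u).card : ℝ) := by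
    set A := ((nb u).filter (fun g => u ∉ td_G nb t (d + 1) g)).filter
      (fun g => g ∈ td_G nb t d u) with hA
    rcases A.eq_empty_or_nonempty with h0 | h0
    · rw [h0, Finset.card_empty, Nat.cast_zero]
      positivity
    · obtain ⟨g, hg, hm⟩ := Finset.exists_max_image A (fun x => (nb x).card) h0
      have hg1 := hg
      rw [hA, Finset.mem_filter, Finset.mem_filter] at hg1
      have h4 : ¬ t * ((nb u).card : ℝ) ≤
          (((td_G nb t d u).filter (fun x => (nb x).card ≤ (nb g).card)).card : ℝ) := by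
        intro h5
        refine hg1.1.2 ?_
        show u ∈ (nb g).filter (fun v => t * ((nb v).card : ℝ) ≤
          (((td_G nb t d v).filter (fun x => (nb x).card ≤ (nb g).card)).card : ℝ))
        rw [Finset.mem_filter]
        exact ⟨hs _ _ hg1.1.1, h5⟩
      refine le_trans ?_ (not_le.1 h4).le
      have h6 : A ⊆ (td_G nb t d u).filter (fun x => (nb x).card ≤ (nb g).card) := by
        intro x hx
        rw [Finset.mem_filter]
        refine ⟨?_, hm x hx⟩
        rw [hA, Finset.mem_filter] at hx
        exact hx.2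
      exact_mod_cast Finset.card_le_card h6
  have h5 : (((nb u).filter (fun g => u ∉ td_G nb t (d + 1) g)).card : ℝ) =
      ((((nb u).filter (fun g => u ∉ td_G nb t (d + 1) g)).filter
      (fun g => g ∈ td_G nb t d u)).card : ℝ) +
      ((((nb u).filter (fun g => u ∉ td_G nb t (d + 1) g)).filter
      (fun g => ¬ g ∈ td_G nb t d u)).card : ℝ) := by
    rw [← h1]
    push_cast
    ring
  rw [h5]
  have h6 : ((((nb u).filter (fun g => u ∉ td_G nb t (d + 1) g)).filter
      (fun g => ¬ g ∈ td_G nb t d u)).card : ℝ) ≤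
      (((nb u).filter (fun g => g ∉ td_G nb t d u)).card : ℝ) := by
    exact_mod_cast h2
  linarith

private theorem td_out {nb : V → Finset V} (hs : ∀ u x, x ∈ nb u → u ∈ nb x) {t : ℝ} (ht : 0 ≤ t)
    (d : ℕ) :
    ∑ u, (((nb u).filter (fun x => x ∉ td_G nb t d u)).card : ℝ) ≤
      (d : ℝ) * t * ∑ u, ((nb u).card : ℝ) := by
  induction d with
  | zero =>
    have h : ∀ u, (nb u).filter (fun x => x ∉ td_G nb t 0 u) = ∅ := by
      intro u
      rw [Finset.filter_eq_empty_iff]
      intro x hx h
      exact h hx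
    simp [h]
  | succ d ih =>
    rw [td_swap hs (fun g u => u ∉ td_G nb t (d + 1) g)]
    refine (Finset.sum_le_sum fun u _ => td_loc hs ht d u).trans ?_
    rw [Finset.sum_add_distrib, ← Finset.mul_sum]
    push_cast
    nlinarith [ih]

/-- the good maps -/
private def td_P (nb : V → Finset V) (t : ℝ) (par : ℕ → ℕ) (N j : ℕ) (φ : ℕ → V) : Prop :=
  ((nb (φ 0)).card : ℝ) / 4 ≤ ((td_G nb t N (φ 0)).card : ℝ) ∧
    ∀ i, 0 < i → i ≤ j → φ i ∈ td_G nb t (N - i) (φ (par i))

open scoped Classical in
private noncomputable def td_f (nb : V → Finset V) (t : ℝ) (par : ℕ → ℕ) (N j : ℕ) (φ : ℕ → V) : ℝ :=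
  if td_P nb t par N j φ then 1 else 0

private theorem td_step {nb : V → Finset V} (hs : ∀ u x, x ∈ nb u → u ∈ nb x) {par : ℕ → ℕ}
    (hp : ∀ i, 0 < i → par i < i) {t : ℝ} (ht : 0 ≤ t) (ht4 : t ≤ 1 / 4) {N j : ℕ} (hj : j < N) :
    t * SS nb par j (td_f nb t par N j) ≤ SS nb par (j + 1) (td_f nb t par N (j + 1)) := by
  rw [← ss_mul, SS]
  refine ss_mono hp j fun φ hφ => ?_
  have hpj : par (j + 1) ≤ j := by
    have := hp (j + 1) (by omega)
    omega
  have hpos : (0 : ℝ) < ((nb (φ (par (j + 1)))).card : ℝ) := by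
    exact_mod_cast vd_pos hs hφ hpj
  rw [le_div_iff₀ hpos]
  classical
  by_cases hP : td_P nb t par N j φ
  · have hsub : (td_G nb t (N - (j + 1)) (φ (par (j + 1)))).filter
        (fun x => (nb x).card ≤ cap nb par φ (par (j + 1))) ⊆
        (ch nb (cap nb par φ (par (j + 1))) (φ (par (j + 1)))).filter
          (fun x => td_P nb t par N (j + 1) (Function.update φ (j + 1) x)) := by
      intro x hx
      rw [Finset.mem_filter] at hx
      rw [Finset.mem_filter]
      refine ⟨Finset.mem_filter.2 ⟨td_G_sub _ _ _ _ hx.1, hx.2⟩, ?_, fun i hi hi' => ?_⟩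
      · rw [Function.update_of_ne (by omega)]
        exact hP.1
      · have h2 := hp i hi
        rw [Function.update_of_ne (a := par i) (by omega)]
        rcases Nat.lt_or_ge i (j + 1) with h3 | h3
        · rw [Function.update_of_ne (by omega)]
          exact hP.2 i hi (by omega)
        · have h4 : i = j + 1 := by omega
          subst h4
          rw [Function.update_self]
          exact hx.1
    have hcard : t * ((nb (φ (par (j + 1)))).card : ℝ) ≤
        (((td_G nb t (N - (j + 1)) (φ (par (j + 1)))).filter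
          (fun x => (nb x).card ≤ cap nb par φ (par (j + 1)))).card : ℝ) := by
      rcases Nat.eq_zero_or_pos (par (j + 1)) with h0 | h0
      · rw [h0]
        have h1 : (td_G nb t (N - (j + 1)) (φ 0)).filter
            (fun x => (nb x).card ≤ cap nb par φ 0) = td_G nb t (N - (j + 1)) (φ 0) := by
          rw [Finset.filter_eq_self]
          intro x _
          unfold cap
          rw [if_pos rfl]
          exact Finset.card_le_univ _
        rw [h1]
        have h2 : ((td_G nb t N (φ 0)).card : ℝ) ≤ ((td_G nb t (N - (j + 1)) (φ 0)).card : ℝ) := by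
          exact_mod_cast Finset.card_le_card (td_G_anti nb t (by omega) (φ 0))
        have h3 := hP.1
        have h4 : t * ((nb (φ 0)).card : ℝ) ≤ 1 / 4 * ((nb (φ 0)).card : ℝ) :=
          mul_le_mul_of_nonneg_right ht4 (Nat.cast_nonneg _)
        linarith
      · have h1 := hP.2 (par (j + 1)) h0 hpj
        have h2 : N - par (j + 1) = (N - par (j + 1) - 1) + 1 := by omega
        rw [h2] at h1
        have h3 : φ (par (j + 1)) ∈ (nb (φ (par (par (j + 1))))).filter
          (fun v => t * ((nb v).card : ℝ) ≤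
            (((td_G nb t (N - par (j + 1) - 1) v).filter
              (fun y => (nb y).card ≤ (nb (φ (par (par (j + 1))))).card)).card : ℝ)) := h1
        rw [Finset.mem_filter] at h3
        refine h3.2.trans ?_
        have h4 : cap nb par φ (par (j + 1)) = (nb (φ (par (par (j + 1))))).card := by
          unfold cap
          rw [if_neg (by omega)]
        rw [h4]
        exact_mod_cast Finset.card_le_card
          (Finset.filter_subset_filter _ (td_G_anti nb t (by omega) _))
    have h1 : td_f nb t par N j φ = 1 := if_pos hP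
    rw [h1, mul_one]
    refine hcard.trans ?_
    have h2 : ∑ x ∈ ch nb (cap nb par φ (par (j + 1))) (φ (par (j + 1))),
        td_f nb t par N (j + 1) (Function.update φ (j + 1) x) =
        (((ch nb (cap nb par φ (par (j + 1))) (φ (par (j + 1)))).filter
          (fun x => td_P nb t par N (j + 1) (Function.update φ (j + 1) x))).card : ℝ) := by
      rw [Finset.card_filter, Nat.cast_sum]
      refine Finset.sum_congr rfl fun x _ => ?_
      unfold td_f
      split_ifs <;> simp
    rw [h2]
    exact_mod_cast Finset.card_le_card hsub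
  · have h1 : td_f nb t par N j φ = 0 := if_neg hP
    rw [h1, mul_zero, zero_mul]
    refine Finset.sum_nonneg fun x _ => ?_
    unfold td_f
    split_ifs <;> norm_num

private theorem td_base {nb : V → Finset V} (hs : ∀ u x, x ∈ nb u → u ∈ nb x) {par : ℕ → ℕ}
    {t : ℝ} (ht : 0 ≤ t) {N : ℕ} (htN : (N : ℝ) * t ≤ 1 / 2) :
    (∑ u, ((nb u).card : ℝ)) / 4 ≤ SS nb par 0 (td_f nb t par N 0) := by
  classical
  have h1 := td_out hs ht N
  have h2 : ∀ u, (((nb u).filter (fun x => x ∉ td_G nb t N u)).card : ℝ) =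
      ((nb u).card : ℝ) - ((td_G nb t N u).card : ℝ) := by
    intro u
    have h3 : ((nb u).filter (fun x => x ∈ td_G nb t N u)).card +
        ((nb u).filter (fun x => ¬ x ∈ td_G nb t N u)).card = (nb u).card :=
      Finset.card_filter_add_card_filter_not _
    have h4 : (nb u).filter (fun x => x ∈ td_G nb t N u) = td_G nb t N u := by
      ext x
      rw [Finset.mem_filter]
      exact ⟨fun h => h.2, fun h => ⟨td_G_sub nb t N u h, h⟩⟩
    rw [h4] at h3
    rw [← h3]
    push_cast
    ring
  rw [Finset.sum_congr rfl fun u _ => h2 u, Finset.sum_sub_distrib] at h1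
  have h3 : ∀ u, ((td_G nb t N u).card : ℝ) ≤
      ((nb u).card : ℝ) / 4 + ((nb u).card : ℝ) * td_f nb t par N 0 (fun _ => u) := by
    intro u
    have h5 : ((td_G nb t N u).card : ℝ) ≤ ((nb u).card : ℝ) := by
      exact_mod_cast Finset.card_le_card (td_G_sub nb t N u)
    have h6 : (0 : ℝ) ≤ ((nb u).card : ℝ) := Nat.cast_nonneg _
    unfold td_f
    split_ifs with h
    · linarith
    · have h7 : ¬ ((nb u).card : ℝ) / 4 ≤ ((td_G nb t N u).card : ℝ) := by
        intro h8
        exact h ⟨h8, fun i hi hi' => by omega⟩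
      linarith [not_le.1 h7]
  have h4 : ∑ u, ((td_G nb t N u).card : ℝ) ≤
      (∑ u, ((nb u).card : ℝ)) / 4 + SS nb par 0 (td_f nb t par N 0) := by
    refine (Finset.sum_le_sum fun u _ => h3 u).trans ?_
    rw [Finset.sum_add_distrib, Finset.sum_div]
    exact le_rfl
  have h5 : (0 : ℝ) ≤ ∑ u, ((nb u).card : ℝ) := Finset.sum_nonneg fun u _ => Nat.cast_nonneg _
  have h6 : (N : ℝ) * t * ∑ u, ((nb u).card : ℝ) ≤ 1 / 2 * ∑ u, ((nb u).card : ℝ) :=
    mul_le_mul_of_nonneg_right htN h5
  linarith

theorem ss_low {nb : V → Finset V} (hs : ∀ u x, x ∈ nb u → u ∈ nb x) {par : ℕ → ℕ}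
    (hp : ∀ i, 0 < i → par i < i) (N : ℕ) :
    (∑ u, ((nb u).card : ℝ)) / 4 * (1 / (2 * (N : ℝ) + 2)) ^ N ≤ SS nb par N (fun _ => 1) := by
  have hN : (0 : ℝ) ≤ (N : ℝ) := Nat.cast_nonneg _
  have ht : (0 : ℝ) ≤ 1 / (2 * (N : ℝ) + 2) := by positivity
  have htN : (N : ℝ) * (1 / (2 * (N : ℝ) + 2)) ≤ 1 / 2 := by
    rw [mul_one_div, div_le_div_iff₀ (by positivity) (by norm_num)]
    linarith
  have key : ∀ j, j ≤ N → (∑ u, ((nb u).card : ℝ)) / 4 * (1 / (2 * (N : ℝ) + 2)) ^ j ≤
      SS nb par j (td_f nb (1 / (2 * (N : ℝ) + 2)) par N j) := by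
    intro j
    induction j with
    | zero =>
      intro _
      rw [pow_zero, mul_one]
      exact td_base hs ht htN
    | succ j ih =>
      intro hj
      have h1 : (1 : ℝ) ≤ (N : ℝ) := by
        exact_mod_cast (by omega : 1 ≤ N)
      have ht4 : (1 : ℝ) / (2 * (N : ℝ) + 2) ≤ 1 / 4 :=
        one_div_le_one_div_of_le (by norm_num) (by linarith)
      refine le_trans ?_ (td_step hs hp ht ht4 (by omega))
      rw [pow_succ, ← mul_assoc, mul_comm]
      exact mul_le_mul_of_nonneg_left (ih (by omega)) ht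
  refine (key N le_rfl).trans (ss_mono hp N fun φ _ => ?_)
  unfold td_f
  split_ifs <;> norm_num

end Pool.Agent.FAN
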