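import Pool.Agent.FAN.Tb
import Pool.Agent.FAN.Tc
import Pool.Agent.FAN.Td

/-!
# Fans (MP_c7cb83_co), module Te: the tree lemma

PLAN.  `θ = 1 / (2 N + 2)`, `K` a natural number with `8 * (N + 1) ^ 2 < K * θ ^ N`, `η = θ ^ N / (8 * (N + 1) ^ 2 + 1)`.  If no map exists, then for every admissible `φ` (`Vd`)
`1 ≤ ∑ p ∈ range (N + 1), ∑ q ∈ range (N + 1), ((if p < q then if φ p = φ q then 1 else 0 else 0) + (if col p ≠ col q then if (φ p, φ q) ∈ B then 1 else 0 else 0))`;
apply `ss_mono`, `ss_sum`, `ss_add`, `ss_coll`, `ss_bad`: `SS nb par N (fun _ => 1) ≤ (N + 1) ^ 2 * (M / K + B.card)`, contradiction to `ss_low` (`M > 0`).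
(`classical`; the admissible `φ` has `φ i ∈ nb (φ (par i))` by `Vd`, the degrees are positive by `vd_pos`.)
-/

set_option autoImplicit false

namespace Pool.Agent.FAN

open Finset

/-- the sum of the indicators of the collisions and of the bad pairs -/
private noncomputable def te_term {V : Type} [DecidableEq V] (col : ℕ → Bool) (B : Finset (V × V))
    (p q : ℕ) (φ : ℕ → V) : ℝ :=
  (if p < q then (if φ p = φ q then (1 : ℝ) else 0) else 0) +
    (if col p ≠ col q then (if (φ p, φ q) ∈ B then (1 : ℝ) else 0) else 0)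

private theorem te_term_nonneg {V : Type} [DecidableEq V] (col : ℕ → Bool) (B : Finset (V × V))
    (p q : ℕ) (φ : ℕ → V) : 0 ≤ te_term col B p q φ := by
  unfold te_term
  split_ifs <;> norm_num

private theorem te_le {V : Type} [DecidableEq V] (col : ℕ → Bool) (B : Finset (V × V))
    {N p q : ℕ} (hp : p ≤ N) (hq : q ≤ N) (φ : ℕ → V) (h : 1 ≤ te_term col B p q φ) :
    1 ≤ ∑ p ∈ range (N + 1), ∑ q ∈ range (N + 1), te_term col B p q φ := by
  have h1 : te_term col B p q φ ≤ ∑ q ∈ range (N + 1), te_term col B p q φ :=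
    Finset.single_le_sum (f := fun q => te_term col B p q φ)
      (fun i _ => te_term_nonneg col B p i φ) (Finset.mem_range.2 (by omega))
  have h2 : ∑ q ∈ range (N + 1), te_term col B p q φ ≤
      ∑ p ∈ range (N + 1), ∑ q ∈ range (N + 1), te_term col B p q φ :=
    Finset.single_le_sum (f := fun p => ∑ q ∈ range (N + 1), te_term col B p q φ)
      (fun i _ => Finset.sum_nonneg fun j _ => te_term_nonneg col B i j φ)
      (Finset.mem_range.2 (by omega))
  linarith

private theorem te_coll {V : Type} [DecidableEq V] (col : ℕ → Bool) (B : Finset (V × V))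
    {N p q : ℕ} (hpq : p < q) (hq : q ≤ N) (φ : ℕ → V) (h : φ p = φ q) :
    1 ≤ ∑ p ∈ range (N + 1), ∑ q ∈ range (N + 1), te_term col B p q φ := by
  refine te_le col B (by omega : p ≤ N) hq φ ?_
  unfold te_term
  rw [if_pos hpq, if_pos h]
  split_ifs <;> norm_num

private theorem te_bad {V : Type} [DecidableEq V] (col : ℕ → Bool) (B : Finset (V × V))
    {N p q : ℕ} (hp : p ≤ N) (hq : q ≤ N) (hc : col p ≠ col q) (φ : ℕ → V)
    (h : (φ p, φ q) ∈ B) :
    1 ≤ ∑ p ∈ range (N + 1), ∑ q ∈ range (N + 1), te_term col B p q φ := by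
  refine te_le col B hp hq φ ?_
  unfold te_term
  rw [if_pos hc, if_pos h]
  split_ifs <;> norm_num

private theorem te_upper {V : Type} [Fintype V] [DecidableEq V] {nb : V → Finset V}
    (hs : ∀ u x, x ∈ nb u → u ∈ nb x) {par : ℕ → ℕ}
    (hp : ∀ i, 0 < i → par i < i) {col : ℕ → Bool} (hc : ∀ i, 0 < i → col (par i) ≠ col i)
    {K : ℕ} (hK : 0 < K) (hd : ∀ u, (nb u).card = 0 ∨ K ≤ (nb u).card) {N p q : ℕ}
    (hpN : p ≤ N) (hqN : q ≤ N) (B : Finset (V × V)) :
    SS nb par N (te_term col B p q) ≤ (∑ u, ((nb u).card : ℝ)) / K + B.card := by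
  have hM : 0 ≤ ∑ u, ((nb u).card : ℝ) := Finset.sum_nonneg fun _ _ => Nat.cast_nonneg _
  have e : te_term col B p q = fun φ : ℕ → V =>
      (if p < q then (if φ p = φ q then (1 : ℝ) else 0) else 0) +
      (if col p ≠ col q then (if (φ p, φ q) ∈ B then (1 : ℝ) else 0) else 0) := by
    funext φ
    rfl
  rw [e, ss_add]
  refine add_le_add ?_ ?_
  · by_cases h : p < q
    · simp only [if_pos h]
      exact ss_coll hs hp hK hd h hqN
    · simp only [if_neg h]
      rw [ss_zero]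
      exact div_nonneg hM (Nat.cast_nonneg _)
  · by_cases h : col p ≠ col q
    · simp only [if_pos h]
      exact ss_bad hs hp hc hpN hqN h B
    · simp only [if_neg h]
      rw [ss_zero]
      exact Nat.cast_nonneg _

theorem tree_lemma (N : ℕ) (par : ℕ → ℕ) (hp : ∀ i, 0 < i → par i < i) (col : ℕ → Bool)
    (hc : ∀ i, 0 < i → col (par i) ≠ col i) :
    ∃ K : ℕ, ∃ η : ℝ, 0 < K ∧ 0 < η ∧ ∀ (V : Type) [Fintype V] [DecidableEq V] (nb : V → Finset V),
      (∀ u x, x ∈ nb u → u ∈ nb x) → (∀ u, (nb u).card = 0 ∨ K ≤ (nb u).card) →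
      0 < ∑ u, ((nb u).card : ℝ) → ∀ B : Finset (V × V),
      (B.card : ℝ) ≤ η * ∑ u, ((nb u).card : ℝ) →
      ∃ φ : ℕ → V, (∀ i ≤ N, ∀ j ≤ N, φ i = φ j → i = j) ∧ (∀ i ≤ N, (nb (φ i)).Nonempty) ∧
        (∀ i, 0 < i → i ≤ N → φ i ∈ nb (φ (par i))) ∧
        ∀ p ≤ N, ∀ q ≤ N, col p ≠ col q → (φ p, φ q) ∉ B := by
  classical
  have hN : (0 : ℝ) ≤ (N : ℝ) := Nat.cast_nonneg _
  have hT : (0 : ℝ) < (1 / (2 * (N : ℝ) + 2)) ^ N := by positivity
  obtain ⟨K, hK⟩ := exists_nat_gt (8 * ((N : ℝ) + 1) ^ 2 / (1 / (2 * (N : ℝ) + 2)) ^ N)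
  have hK0 : (0 : ℝ) < K := lt_trans (by positivity) hK
  have hK1 : 8 * ((N : ℝ) + 1) ^ 2 < K * (1 / (2 * (N : ℝ) + 2)) ^ N := (div_lt_iff₀ hT).1 hK
  refine ⟨K, (1 / (2 * (N : ℝ) + 2)) ^ N / (8 * ((N : ℝ) + 1) ^ 2 + 1), by exact_mod_cast hK0,
    by positivity, ?_⟩
  intro V _ _ nb hs hd hM B hB
  by_contra hno
  have hone : ∀ φ, Vd nb par N φ →
      (1 : ℝ) ≤ ∑ p ∈ range (N + 1), ∑ q ∈ range (N + 1), te_term col B p q φ := by
    intro φ hφ
    by_contra hlt
    refine hno ⟨φ, ?_, ?_, ?_, ?_⟩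
    · intro i hi j hj hij
      by_contra hne
      rcases Nat.lt_or_gt_of_ne hne with h | h
      · exact hlt (te_coll col B h hj φ hij)
      · exact hlt (te_coll col B h hi φ hij.symm)
    · intro i hi
      exact Finset.card_pos.1 (vd_pos hs hφ hi)
    · intro i hi hiN
      exact (Finset.mem_filter.1 (hφ.2 i hi hiN)).1
    · intro p hp' q hq hcol hmem
      exact hlt (te_bad col B hp' hq hcol φ hmem)
  have h1 := ss_low hs hp (nb := nb) N
  have h2 : SS nb par N (fun _ => 1) ≤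
      SS nb par N (fun φ => ∑ p ∈ range (N + 1), ∑ q ∈ range (N + 1), te_term col B p q φ) :=
    ss_mono hp N hone
  have h3 : SS nb par N
      (fun φ => ∑ p ∈ range (N + 1), ∑ q ∈ range (N + 1), te_term col B p q φ) =
      ∑ p ∈ range (N + 1), ∑ q ∈ range (N + 1), SS nb par N (te_term col B p q) := by
    rw [ss_sum nb par N (range (N + 1))
      (fun p φ => ∑ q ∈ range (N + 1), te_term col B p q φ)]
    refine Finset.sum_congr rfl fun p _ => ?_
    exact ss_sum nb par N (range (N + 1)) (fun q φ => te_term col B p q φ)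
  have h4 : ∑ p ∈ range (N + 1), ∑ q ∈ range (N + 1), SS nb par N (te_term col B p q) ≤
      ∑ p ∈ range (N + 1), ∑ q ∈ range (N + 1), ((∑ u, ((nb u).card : ℝ)) / K + B.card) := by
    refine Finset.sum_le_sum fun p hp' => Finset.sum_le_sum fun q hq => ?_
    have hp2 := Finset.mem_range.1 hp'
    have hq2 := Finset.mem_range.1 hq
    exact te_upper hs hp hc (by exact_mod_cast hK0) hd (by omega) (by omega) B
  have h5 : ∑ p ∈ range (N + 1), ∑ q ∈ range (N + 1), ((∑ u, ((nb u).card : ℝ)) / K + B.card) =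
      ((N : ℝ) + 1) ^ 2 * ((∑ u, ((nb u).card : ℝ)) / K + B.card) := by
    simp only [Finset.sum_const, Finset.card_range, nsmul_eq_mul]
    push_cast
    ring
  have h6 : (∑ u, ((nb u).card : ℝ)) / 4 * (1 / (2 * (N : ℝ) + 2)) ^ N ≤
      ((N : ℝ) + 1) ^ 2 * ((∑ u, ((nb u).card : ℝ)) / K + B.card) := by
    calc _ ≤ SS nb par N (fun _ => 1) := h1
      _ ≤ _ := h2
      _ = _ := h3
      _ ≤ _ := h4
      _ = _ := h5
  revert h6 hB hM
  generalize (∑ u, ((nb u).card : ℝ)) = M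
  generalize (B.card : ℝ) = b
  revert hT hK1
  generalize (1 / (2 * (N : ℝ) + 2)) ^ N = T
  intro hT hK1 hM hB h6
  have hA : (0 : ℝ) < ((N : ℝ) + 1) ^ 2 := by positivity
  revert hA hK1 hB h6
  generalize ((N : ℝ) + 1) ^ 2 = A
  intro hK1 hB h6 hA
  have h7 : A * (M / K) < M * T / 8 := by
    rw [← mul_div_assoc, div_lt_div_iff₀ hK0 (by norm_num)]
    nlinarith
  have h8 : A * b ≤ M * T / 8 := by
    have h9 : A * b ≤ A * (T / (8 * A + 1) * M) := mul_le_mul_of_nonneg_left hB hA.le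
    refine h9.trans ?_
    have h10 : A * (T / (8 * A + 1) * M) = (A * T * M) / (8 * A + 1) := by
      field_simp
    rw [h10, div_le_div_iff₀ (by positivity) (by norm_num)]
    have h11 : 0 < M * T := mul_pos hM hT
    nlinarith
  have h9 : 0 < M * T := mul_pos hM hT
  nlinarith

end Pool.Agent.FAN
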